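import Pool.Agent.Helper71.RI.Word
import Pool.Agent.Helper16.UR.Run

/-!
# Combination of winning strategies of player I; measurability
-/

set_option autoImplicit false

namespace Pool.Agent.RI

/-- the owner of the coordinate `(g, m)` -/
noncomputable def oIdx (g : Lam) (m : ℕ) : ℕ := (fst g).getD m

theorem own_iff (n : ℕ) (g : Lam) (m : ℕ) : own n g m ↔ oIdx g m = n := by
  unfold own oIdx
  cases h : fst g with
  | none =>
    have hg : g = 1 := fst_eq_none.1 h
    simp [hg]
  | some k =>
    have hg : g ≠ 1 := by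
      intro hg
      rw [hg, fst_one] at h
      cases h
    simp [hg]

/-- the moves of the simultaneous games -/
noncomputable def cStep (σ : ℕ → List Cf → Cf) (H : ℕ → List Cf) (n : ℕ) : Cf × Cf :=
  (σ n (H n), fun g m => σ (oIdx g m) (H (oIdx g m)) g m)

theorem combine (A : ℕ → Set Cf)
    (hI : ∀ n, ∃ σ : List Cf → Cf, ∀ X : ℕ → Cf, Follows 0 σ X → nrm (res n X) ∉ A n) :
    ∃ z, IsZ z ∧ ∀ n, z ∉ A n := by
  classical
  choose σ hσ using hI
  set X : ℕ → ℕ → Cf := runX (cStep σ) with hX
  set s : Cf := fun g m => σ (oIdx g m) (runH (cStep σ) (wt g + m) (oIdx g m)) g m with hs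
  refine ⟨nrm s, isZ_nrm s, fun n => ?_⟩
  have hF : Follows 0 (σ n) (X n) := by
    intro k hk
    obtain ⟨r, rfl⟩ : ∃ r, k = 2 * r := ⟨k / 2, by omega⟩
    have e1 : X n (2 * r) = (cStep σ (runH (cStep σ) r) n).1 := runX_even _ n r
    rw [e1, ← runH_eq]
    rfl
  have hres : res n (X n) = s := by
    funext g m
    unfold res
    by_cases ho : own n g m
    · rw [if_pos ho]
      have e1 : X n (2 * (wt g + m)) = (cStep σ (runH (cStep σ) (wt g + m)) n).1 :=
        runX_even _ n _
      rw [e1]
      have e2 : oIdx g m = n := (own_iff n g m).1 ho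
      simp only [cStep, hs, e2]
    · rw [if_neg ho]
      have e1 : X n (2 * (wt g + m) + 1) = (cStep σ (runH (cStep σ) (wt g + m)) n).2 :=
        runX_odd _ n _
      rw [e1]
      simp only [cStep, hs]
  rw [← hres]
  exact hσ n _ hF

theorem measurable_res (n : ℕ) (A : Set Cf) (hA : MeasurableSet A) :
    @MeasurableSet (ℕ → Cf) (@MeasurableSpace.pi ℕ (fun _ => Cf) (fun _ => ⊤))
      {X : ℕ → Cf | nrm (res n X) ∉ A} := by
  classical
  have hm : @Measurable (ℕ → Cf) Cf (@MeasurableSpace.pi ℕ (fun _ => Cf) (fun _ => ⊤)) _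
      (fun X => nrm (res n X)) := by
    refine @measurable_pi_lambda _ _ _ (@MeasurableSpace.pi ℕ (fun _ => Cf) (fun _ => ⊤)) _ _
      (fun g => ?_)
    refine @measurable_pi_lambda _ _ _ (@MeasurableSpace.pi ℕ (fun _ => Cf) (fun _ => ⊤)) _ _
      (fun m => ?_)
    -- a function of one coordinate
    have hev : ∀ (k : ℕ) (f : Cf → ZMod 3), @Measurable (ℕ → Cf) (ZMod 3)
        (@MeasurableSpace.pi ℕ (fun _ => Cf) (fun _ => ⊤)) _ (fun X => f (X k)) := by
      intro k f
      have h1 : @Measurable Cf (ZMod 3) ⊤ _ f := fun _ _ => trivial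
      have h2 : @Measurable (ℕ → Cf) Cf (@MeasurableSpace.pi ℕ (fun _ => Cf) (fun _ => ⊤)) ⊤
          (fun X => X k) := @measurable_pi_apply ℕ (fun _ => Cf) (fun _ => ⊤) k
      exact @Measurable.comp _ _ _ (@MeasurableSpace.pi ℕ (fun _ => Cf) (fun _ => ⊤)) ⊤ _ _ _ h1 h2
    by_cases ho : own n (dec g m).1 m
    · have e : (fun X : ℕ → Cf => nrm (res n X) g m)
          = fun X => (fun c : Cf => c (dec g m).1 m + (dec g m).2) (X (2 * (wt (dec g m).1 + m))) := by
        funext X
        simp only [nrm, res, if_pos ho]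
      rw [e]
      exact hev _ (fun c : Cf => c (dec g m).1 m + (dec g m).2)
    · have e : (fun X : ℕ → Cf => nrm (res n X) g m)
          = fun X => (fun c : Cf => c (dec g m).1 m + (dec g m).2)
              (X (2 * (wt (dec g m).1 + m) + 1)) := by
        funext X
        simp only [nrm, res, if_neg ho]
      rw [e]
      exact hev _ (fun c : Cf => c (dec g m).1 m + (dec g m).2)
  exact hm hA.compl

end Pool.Agent.RI
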