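import Pool.Agent.Helper71.RI.NoII
import Pool.Agent.Helper71.RI.Combine
import Pool.Agent.Helper71.BD.Seq

/-!
# Avoiding countably many Borel sets
-/

set_option autoImplicit false

namespace Pool.Agent.RI

/-- If `A n` is Borel and contains no complete orbit of `θ_n` then the sets `A n` do not cover
the space of configurations with phases. -/
theorem exists_avoid (A : ℕ → Set Cf) (hA : ∀ n, MeasurableSet (A n))
    (h3 : ∀ n z, IsZ z → ¬ (z ∈ A n ∧ act (thp n 1) z ∈ A n ∧ act (thp n 2) z ∈ A n)) :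
    ∃ z, IsZ z ∧ ∀ n, z ∉ A n := by
  apply combine
  intro n
  rcases BD.borel_det_seq (A := Cf) {X : ℕ → Cf | nrm (res n X) ∉ A n}
    (measurable_res n (A n) (hA n)) with ⟨σ, hσ⟩ | ⟨σ, hσ⟩
  · exact ⟨σ, fun X hX => hσ X hX⟩
  · exact absurd ⟨σ, fun X hX => not_not.1 (hσ X hX)⟩ (no_II n (A n) (h3 n))

end Pool.Agent.RI
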