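import Mathlib

/-!
# The free product of countably many copies of `ℤ/3`, phases and games

`Lam` is the free product of the groups `⟨θ_n⟩ ≅ ℤ/3`, `n ∈ ℕ`.
-/

set_option autoImplicit false

namespace Pool.Agent.RI

/-- The free product of countably many copies of `ℤ/3`. -/
abbrev Lam : Type := Monoid.CoprodI (fun _ : ℕ => Multiplicative (ZMod 3))

/-- `θ_n ^ e`. -/
def thp (n : ℕ) (e : ZMod 3) : Lam :=
  Monoid.CoprodI.of (M := fun _ : ℕ => Multiplicative (ZMod 3)) (i := n) (Multiplicative.ofAdd e)

/-- The generator `θ_n`. -/
def th (n : ℕ) : Lam := thp n 1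

/-- Index of the first letter of the reduced word of `g`. -/
noncomputable def fst (g : Lam) : Option ℕ := (Monoid.CoprodI.Word.equiv g).fstIdx

/-- Index of the last letter. -/
noncomputable def lst (g : Lam) : Option ℕ :=
  ((Monoid.CoprodI.Word.equiv g).toList.getLast?).map Sigma.fst

/-- Weight: sum of (index + 1) over the letters of the reduced word. -/
noncomputable def wt (g : Lam) : ℕ :=
  ((Monoid.CoprodI.Word.equiv g).toList.map (fun s => s.1 + 1)).sum

/-- The type of moves (and of configurations). -/
abbrev Cf : Type := Lam → ℕ → ZMod 3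

/-- Left translation of configurations. -/
def act (g : Lam) (z : Cf) : Cf := fun h => z (g⁻¹ * h)

/-- Configurations with phases. -/
def IsZ (z : Cf) : Prop := ∀ g m, z (g * th m) m = z g m + 1

/-- `(g', e)` with `g = g' θ_m^e` and `g'` not ending in a letter of index `m`
(see `dec_spec` in `Word`). -/
noncomputable def dec (g : Lam) (m : ℕ) : Lam × ZMod 3 :=
  Classical.epsilon fun r : Lam × ZMod 3 => g = r.1 * thp m r.2 ∧ lst r.1 ≠ some m

/-- Normalisation: keep the values at `(g, m)` with `g` not ending in `m`. -/
noncomputable def nrm (s : Cf) : Cf := fun g m => s (dec g m).1 m + (dec g m).2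

/-- In the game number `n`, player I (index `0`) owns the coordinate `(g, m)`. -/
def own (n : ℕ) (g : Lam) (m : ℕ) : Prop := fst g = some n ∨ (g = 1 ∧ m = n)

open Classical in
/-- The configuration read off from a play: the coordinate `(g, m)` is revealed in round
`wt g + m`, by its owner. -/
noncomputable def res (n : ℕ) (X : ℕ → Cf) : Cf := fun g m =>
  if own n g m then X (2 * (wt g + m)) g m else X (2 * (wt g + m) + 1) g m

/-- `X` is a play in which player `i` (`0` or `1`) follows `σ`. -/
def Follows (i : ℕ) (σ : List Cf → Cf) (X : ℕ → Cf) : Prop :=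
  ∀ k, k % 2 = i → X k = σ ((List.range k).map X)

/-- Nonfree configurations. -/
def NonFree (z : Cf) : Prop := ∃ g : Lam, g ≠ 1 ∧ act g z = z

theorem act_one (z : Cf) : act 1 z = z := by
  funext h; simp [act]

theorem act_mul (g h : Lam) (z : Cf) : act (g * h) z = act g (act h z) := by
  funext k; simp [act, mul_assoc]

end Pool.Agent.RI
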