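import Pool.Agent.Helper71.RI.Word

/-!
# A free subgroup of the free product of copies of `ℤ/3` (helper21)
-/

set_option autoImplicit false

namespace Pool.Agent.RI

/-- `(k, n) ↦ θ_(k,n+1) θ_(k,0)⁻¹`. -/
def iota : FreeGroup (ℕ × ℕ) →* Lam :=
  FreeGroup.lift fun e => thp (Nat.pair e.1 (e.2 + 1)) 1 * (thp (Nat.pair e.1 0) 1)⁻¹

private def XX (e : ℕ × ℕ) : Set Lam :=
  {g | ∃ g', fst g' ≠ some (Nat.pair e.1 (e.2 + 1)) ∧ g = thp (Nat.pair e.1 (e.2 + 1)) 1 * g'}

private def YY (e : ℕ × ℕ) : Set Lam :=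
  {g | ∃ (f : ZMod 3) (g' : Lam), f ≠ 0 ∧ fst g' ≠ some (Nat.pair e.1 (e.2 + 1)) ∧
    g = thp (Nat.pair e.1 0) 1 * (thp (Nat.pair e.1 (e.2 + 1)) f * g')}

private theorem pair_ne (e e' : ℕ × ℕ) : Nat.pair e.1 (e.2 + 1) ≠ Nat.pair e'.1 0 := by
  intro h
  have := (Nat.pair_eq_pair.1 h).2
  omega

private theorem fst_XX {e : ℕ × ℕ} {g : Lam} (h : g ∈ XX e) :
    fst g = some (Nat.pair e.1 (e.2 + 1)) := by
  obtain ⟨g', h1, rfl⟩ := h
  exact fst_mul (by decide) h1

private theorem fst_YY {e : ℕ × ℕ} {g : Lam} (h : g ∈ YY e) :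
    fst g = some (Nat.pair e.1 0) := by
  obtain ⟨f, g', hf, h1, rfl⟩ := h
  refine fst_mul (by decide) ?_
  rw [fst_mul hf h1]
  intro h
  exact pair_ne e e (Option.some.inj h)

open scoped Pointwise in
theorem iota_inj : Function.Injective iota := by
  refine FreeGroup.injective_lift_of_ping_pong
    (fun e : ℕ × ℕ => thp (Nat.pair e.1 (e.2 + 1)) 1 * (thp (Nat.pair e.1 0) 1)⁻¹) XX YY
    ?_ ?_ ?_ ?_ ?_ ?_
  · intro e
    refine ⟨thp (Nat.pair e.1 (e.2 + 1)) 1, 1, ?_, (mul_one _).symm⟩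
    rw [fst_one]; exact Option.some_ne_none _ |>.symm
  · intro e e' hne
    refine Set.disjoint_left.2 fun g h h' => hne ?_
    have := (fst_XX h).symm.trans (fst_XX h')
    obtain ⟨h1, h2⟩ := Nat.pair_eq_pair.1 (Option.some.inj this)
    exact Prod.ext h1 (by omega)
  · intro e e' hne
    refine Set.disjoint_left.2 fun g h h' => hne ?_
    have h3 := (fst_YY h).symm.trans (fst_YY h')
    obtain ⟨h1, -⟩ := Nat.pair_eq_pair.1 (Option.some.inj h3)
    obtain ⟨f, g', hf, hg', hg⟩ := h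
    obtain ⟨f', g'', hf', hg'', hg2⟩ := h'
    rw [hg, h1] at hg2
    have h4 := mul_left_cancel hg2
    have h5 : fst (thp (Nat.pair e'.1 (e.2 + 1)) f * g') = some (Nat.pair e'.1 (e.2 + 1)) := by
      apply fst_mul hf
      rw [← h1]; exact hg'
    rw [h4, fst_mul hf' hg''] at h5
    obtain ⟨-, h2⟩ := Nat.pair_eq_pair.1 (Option.some.inj h5)
    exact Prod.ext h1 (by omega)
  · intro e e'
    refine Set.disjoint_left.2 fun g h h' => ?_
    have := (fst_XX h).symm.trans (fst_YY h')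
    exact pair_ne e e' (Option.some.inj this)
  · rintro e _ ⟨g, hg, rfl⟩
    obtain ⟨f, g', hg', rfl⟩ := left_dec (Nat.pair e.1 0) g
    refine ⟨(thp (Nat.pair e.1 0) 1)⁻¹ * (thp (Nat.pair e.1 0) f * g'), ?_, ?_⟩
    · rw [← mul_assoc, ← thp_neg, ← thp_add]
      by_cases hf : -1 + f = 0
      · have hf1 : f = 1 := by
          have := congrArg (fun x => 1 + x) hf
          simpa using this
        rw [hf, thp_zero, one_mul]
        intro h
        apply hg
        obtain ⟨f', g'', hg'', h6⟩ := left_dec (Nat.pair e.1 (e.2 + 1)) g'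
        by_cases hf' : f' = 0
        · rw [hf', thp_zero, one_mul] at h6
          rw [h6] at h
          exact absurd h hg''
        · exact ⟨f', g'', hf', hg'', by rw [hf1, ← h6]⟩
      · rw [fst_mul hf hg']
        intro h
        exact pair_ne e e (Option.some.inj h).symm
    · simp only [smul_eq_mul, mul_assoc]
  · rintro e _ ⟨g, hg, rfl⟩
    obtain ⟨f, g', hg', rfl⟩ := left_dec (Nat.pair e.1 (e.2 + 1)) g
    refine ⟨-1 + f, g', ?_, hg', ?_⟩
    · intro hf
      have hf1 : f = 1 := by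
        have := congrArg (fun x => 1 + x) hf
        simpa using this
      exact hg ⟨g', hg', by rw [hf1]⟩
    · simp only [smul_eq_mul, Pi.inv_apply, mul_inv_rev, inv_inv, thp_add, thp_neg, mul_assoc]

theorem iota_ne_thp (k : FreeGroup (ℕ × ℕ)) (n : ℕ) : iota k ≠ thp n 1 := by
  obtain ⟨ε, hε⟩ := exists_esum
  have h1 : ε.comp iota = 1 := by
    ext e
    simp only [iota, MonoidHom.comp_apply, FreeGroup.lift_apply_of, map_mul, map_inv, hε,
      MonoidHom.one_apply, mul_inv_cancel]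
  intro h
  have h2 : ε (iota k) = 1 := by
    rw [← MonoidHom.comp_apply, h1, MonoidHom.one_apply]
  rw [h, hε] at h2
  exact absurd h2 (by decide)

end Pool.Agent.RI
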