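import Pool.Agent.Helper71.RI.Meas
import Pool.Agent.Helper11.NonFreeCover

/-!
# The nonfree part
-/

set_option autoImplicit false

namespace Pool.Agent.RI

/-- The nonfree configurations can be covered by Borel sets `N n` such that `N n` contains no
complete orbit of `θ_n`. -/
theorem nonfree_cover : ∃ N : ℕ → Set Cf, (∀ n, MeasurableSet (N n)) ∧
    (∀ z, IsZ z → NonFree z → ∃ n, z ∈ N n) ∧
    (∀ n z, z ∈ N n → NonFree z) ∧
    (∀ n z, IsZ z → ¬ (z ∈ N n ∧ act (thp n 1) z ∈ N n ∧ act (thp n 2) z ∈ N n)) :=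
  nonfree_cover_aux

end Pool.Agent.RI
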