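import Pool.Agent.Helper71.RI.FreeA

/-!
# The antihomomorphism attached to two computable permutations (helper21)
-/

set_option autoImplicit false

namespace Pool.Agent.RI

private theorem comp_inv (P : Equiv.Perm ℕ) (h : Computable P) : Computable P.symm := by
  have h1 : Computable₂ (fun n m : ℕ => decide (P m = n)) := by
    have := (Primrec.eq (α := ℕ)).decide.to_comp
    exact this.comp (h.comp Computable.snd) Computable.fst
  have h2 : Partrec (fun n : ℕ => Nat.rfind (fun m => Part.some (decide (P m = n)))) :=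
    Partrec.rfind h1.partrec₂
  refine Partrec.of_eq h2 fun n => ?_
  refine Part.eq_some_iff.2 (Nat.mem_rfind.2 ⟨?_, ?_⟩)
  · simp
  · intro m hm
    have : P m ≠ n := by
      intro h
      rw [← h, Equiv.symm_apply_apply] at hm
      exact lt_irrefl _ hm
    simpa using this

private theorem comp_pow (P : Equiv.Perm ℕ) (h : Computable P) :
    Computable₂ (fun j n : ℕ => (P ^ j) n) := by
  have h1 : Computable (fun a : ℕ × ℕ => (Nat.rec a.2 (fun _ IH => P IH) a.1 : ℕ)) :=
    Computable.nat_rec (f := fun a : ℕ × ℕ => a.1) (g := fun a => a.2) (h := fun _ b => P b.2)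
      Computable.fst Computable.snd (h.comp (Computable.snd.comp Computable.snd))
  refine h1.of_eq fun a => ?_
  obtain ⟨j, n⟩ := a
  show (Nat.rec n (fun _ IH => P IH) j : ℕ) = (P ^ j) n
  induction j with
  | zero => rfl
  | succ j ih =>
    rw [pow_succ', Equiv.Perm.mul_apply, ← ih]

theorem exists_rho (p : Fin 2 → ℕ → ℕ) (hb : ∀ i, Function.Bijective (p i))
    (hc : ∀ i, Computable (p i)) :
    ∃ ρ : FreeGroup (Fin 2) → ℕ → ℕ, (∀ n, ρ 1 n = n) ∧ (∀ g h n, ρ (g * h) n = ρ h (ρ g n)) ∧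
      (∀ i n, ρ (FreeGroup.of i) n = p i n) ∧
      Computable₂ (fun j n : ℕ => ρ (vv j) n) ∧ Computable₂ (fun j n : ℕ => ρ (vv j)⁻¹ n) := by
  let P : Fin 2 → Equiv.Perm ℕ := fun i => Equiv.ofBijective (p i) (hb i)
  let R : FreeGroup (Fin 2) →* (Equiv.Perm ℕ)ᵐᵒᵖ := FreeGroup.lift fun i => MulOpposite.op (P i)
  have hof : ∀ i, (R (FreeGroup.of i)).unop = P i := by
    intro i; simp [R]
  have hP : ∀ i, Computable (P i) := hc
  have key : ∀ (Q : Equiv.Perm ℕ), Computable Q →
      Computable₂ (fun j n : ℕ => ((P 0)⁻¹ ^ j) (Q ((P 0 ^ j) n))) := by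
    intro Q hQ
    have h0 := comp_pow (P 0) (hP 0)
    have h1 : Computable₂ (fun j n : ℕ => ((P 0)⁻¹ ^ j) n) := comp_pow (P 0)⁻¹ (comp_inv (P 0) (hP 0))
    exact h1.comp Computable.fst (hQ.comp (h0.comp Computable.fst Computable.snd))
  refine ⟨fun g n => (R g).unop n, ?_, ?_, ?_, ?_, ?_⟩
  · intro n; simp
  · intro g h n
    simp [map_mul, MulOpposite.unop_mul, Equiv.Perm.mul_apply]
  · intro i n
    show (R (FreeGroup.of i)).unop n = p i n
    rw [hof]; rfl
  · refine (key (P 1) (hP 1)).of_eq fun a => ?_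
    obtain ⟨j, n⟩ := a
    simp only [vv, map_mul, map_pow, map_inv, MulOpposite.unop_mul, MulOpposite.unop_pow,
      MulOpposite.unop_inv, hof, Equiv.Perm.mul_apply, inv_pow]
  · refine (key (P 1)⁻¹ (comp_inv (P 1) (hP 1))).of_eq fun a => ?_
    obtain ⟨j, n⟩ := a
    simp only [vv, mul_inv_rev, inv_inv, map_mul, map_pow, map_inv, MulOpposite.unop_mul,
      MulOpposite.unop_pow, MulOpposite.unop_inv, hof, Equiv.Perm.mul_apply, inv_pow]

end Pool.Agent.RI
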