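import Pool.Agent.Helper71.RI.Avoid
import Pool.Agent.Helper71.RI.NonFree
import Pool.Agent.Helper71.RI.Iota
import Pool.Agent.Helper71.RI.Rho

/-!
# Recursive isomorphism on Cantor space is not uniformly universal
-/

set_option autoImplicit false

namespace Pool.Agent.RI

variable {Γ : Type} [Group Γ]

/-- The shift action of `Γ` on `(2^ℕ)^Γ`. -/
def shift (γ : Γ) (x : Γ → ℕ → Bool) : Γ → ℕ → Bool := fun δ => x (γ⁻¹ * δ)

/-- Points of the free part of the shift. -/
def IsFree (x : Γ → ℕ → Bool) : Prop := ∀ γ : Γ, shift γ x = x → γ = 1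

/-- Recursive isomorphism of subsets of `ℕ`, identified with points of `2^ℕ`. -/
def RecIso (a b : ℕ → Bool) : Prop := ∃ π : ℕ → ℕ, Function.Bijective π ∧ Computable π ∧ a ∘ π = b

/-- `f` is uniform along the orbit of `x` under the two generators of the subgroup `j (F₂)`:
two fixed computable permutations carry `f y` to `f (a y)` and to `f (b y)`, for all `y` in the
orbit of `x` under `j (F₂)`. -/
def UniformAt (j : FreeGroup (Fin 2) →* Γ) (f : (Γ → ℕ → Bool) → (ℕ → Bool))
    (x : Γ → ℕ → Bool) : Prop :=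
  ∃ p : Fin 2 → ℕ → ℕ, (∀ i, Function.Bijective (p i)) ∧ (∀ i, Computable (p i)) ∧
    ∀ (g : FreeGroup (Fin 2)) (i : Fin 2),
      f (shift (j (FreeGroup.of i)) (shift (j g) x)) = f (shift (j g) x) ∘ p i

/-! ### Basic facts -/

theorem shift_mul (γ δ : Γ) (x : Γ → ℕ → Bool) : shift (γ * δ) x = shift γ (shift δ x) := by
  funext ε; simp [shift, mul_assoc]

theorem shift_one (x : Γ → ℕ → Bool) : shift (1 : Γ) x = x := by
  funext ε; simp [shift]

theorem measurable_shift (γ : Γ) : Measurable (shift γ) := by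
  refine measurable_pi_iff.2 fun δ => ?_
  exact measurable_pi_apply (γ⁻¹ * δ)

theorem IsFree.shift {x : Γ → ℕ → Bool} (hx : IsFree x) (γ : Γ) : IsFree (shift γ x) := by
  intro δ hδ
  have h : RI.shift (γ⁻¹ * δ * γ) x = x := by
    rw [shift_mul, shift_mul, hδ, ← shift_mul, inv_mul_cancel, shift_one]
  have h2 := hx _ h
  have : δ = γ * (γ⁻¹ * δ * γ) * γ⁻¹ := by group
  rw [this, h2]; group

theorem NonFree.act {z : Cf} (h : NonFree z) (g : Lam) : NonFree (act g z) := by
  obtain ⟨k, hk, hz⟩ := h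
  refine ⟨g * k * g⁻¹, ?_, ?_⟩
  · intro e
    apply hk
    have : k = g⁻¹ * (g * k * g⁻¹) * g := by group
    rw [this, e]; group
  · rw [← act_mul, inv_mul_cancel_right, act_mul, hz]

theorem NonFree.of_act {z : Cf} {g : Lam} (h : NonFree (RI.act g z)) : NonFree z := by
  have := h.act g⁻¹
  rwa [← act_mul, inv_mul_cancel, act_one] at this

/-- Pairs of computable permutations. -/
def PP : Type := {p : Fin 2 → ℕ → ℕ // (∀ i, Function.Bijective (p i)) ∧ ∀ i, Computable (p i)}

instance : Countable PP := by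
  have h : ∀ (p : PP) (i : Fin 2), ∃ c : Nat.Partrec.Code, c.eval = fun n => Part.some (p.1 i n) := by
    intro p i
    have := p.2.2 i
    exact Nat.Partrec.Code.exists_code.1 (Partrec.nat_iff.1 this)
  choose c hc using h
  have hinj : Function.Injective (fun (p : PP) (i : Fin 2) => c p i) := by
    intro p q hpq
    apply Subtype.ext
    funext i n
    have h1 : c p i = c q i := congrFun hpq i
    have h2 := congrFun ((hc p i).symm.trans ((congrArg _ h1).trans (hc q i))) n
    exact Part.some_inj.1 h2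
  exact hinj.countable

instance : Inhabited PP := ⟨⟨fun _ n => n, fun _ => Function.bijective_id, fun _ => Computable.id⟩⟩

theorem final (j : FreeGroup (Fin 2) →* Γ) (hj : Function.Injective j)
    (f : (Γ → ℕ → Bool) → (ℕ → Bool)) (hf : Measurable f)
    (hu : ∀ x, IsFree x → UniformAt j f x) :
    ∃ x y, IsFree x ∧ IsFree y ∧ (∀ γ : Γ, shift γ x ≠ y) ∧ RecIso (f x) (f y) := by
  classical
  -- labels
  obtain ⟨P, hP⟩ := exists_surjective_nat PP
  have hρ := fun k => exists_rho (P k).1 (P k).2.1 (P k).2.2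
  choose ρ ρ1 ρm ρo ρc ρc' using hρ
  have hVc : ∀ k, Computable₂ (fun i n : ℕ => ρ k (vv (Nat.pair k i)) n) := by
    intro k
    exact (ρc k).comp (Primrec₂.natPair.comp (Primrec.const k) Primrec.fst).to_comp
      Computable.snd
  have hVc' : ∀ k, Computable₂ (fun i n : ℕ => ρ k (vv (Nat.pair k i))⁻¹ n) := by
    intro k
    exact (ρc' k).comp (Primrec₂.natPair.comp (Primrec.const k) Primrec.fst).to_comp
      Computable.snd
  have hinv : ∀ k g n, ρ k g⁻¹ (ρ k g n) = n := by
    intro k g n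
    rw [← ρm, mul_inv_cancel, ρ1]
  have hinv' : ∀ k g n, ρ k g (ρ k g⁻¹ n) = n := by
    intro k g n
    rw [← ρm, inv_mul_cancel, ρ1]
  have hperm := fun k => exists_perm _ _ (hVc k) (hVc' k) (fun i n => hinv k _ n)
    (fun i n => hinv' k _ n)
  choose π code hπc hπb hpos hneg hdif hmain hsec using hperm
  -- group elements
  set lv : FreeGroup ℕ →* FreeGroup (Fin 2) := FreeGroup.lift vv with hlv
  set w : ℕ → ℕ → FreeGroup (Fin 2) := fun k n => lv ((code k n).el k) with hw
  have hρw : ∀ k n, ρ k (w k n) n = π k n := by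
    intro k n
    rcases hc : code k n with i | i | ⟨i, i'⟩
    · simp only [hw, hc, Lt.el, hlv, FreeGroup.lift_apply_of]
      exact (hpos k n i hc).symm
    · simp only [hw, hc, Lt.el, hlv, map_inv, FreeGroup.lift_apply_of]
      exact (hneg k n i hc).symm
    · simp only [hw, hc, Lt.el, hlv, map_mul, map_inv, FreeGroup.lift_apply_of]
      obtain ⟨h1, h2, -⟩ := hdif k n i i' hc
      rw [h1, ρm, h2]
      exact hinv k _ n
  have hκ0 := kappa_inj code hmain hsec
  set κ0 : FreeGroup (ℕ × ℕ) →* FreeGroup ℕ := FreeGroup.lift (fun e : ℕ × ℕ =>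
      ((code e.1 (e.2 + 1)).el e.1)⁻¹ * (code e.1 0).el e.1) with hκ0def
  set κ : FreeGroup (ℕ × ℕ) →* Γ := (j.comp lv).comp κ0 with hκdef
  have hκ : Function.Injective κ := hj.comp (vv_inj.comp hκ0)
  have hκof : ∀ k n, κ (FreeGroup.of (k, n)) = (j (w k (n + 1)))⁻¹ * j (w k 0) := by
    intro k n
    simp only [hκdef, hκ0def, MonoidHom.comp_apply, FreeGroup.lift_apply_of, map_mul, map_inv, hw]
  -- the map Φ
  obtain ⟨φ, φm, φi, φ0⟩ := exists_code
  set Φ : Cf → (Γ → ℕ → Bool) := fun z γ =>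
    if h : ∃ m, κ m = γ then φ (act (iota h.choose)⁻¹ z) else fun _ => false with hΦ
  have Φκ : ∀ z m, Φ z (κ m) = φ (act (iota m)⁻¹ z) := by
    intro z m
    have h : ∃ m', κ m' = κ m := ⟨m, rfl⟩
    simp only [hΦ, h, dif_pos]
    rw [hκ h.choose_spec]
  have Φ0 : ∀ z γ, (¬ ∃ m, κ m = γ) → Φ z γ = fun _ => false := by
    intro z γ h
    simp only [hΦ, h, dif_neg, not_false_eq_true]
  have Φ1 : ∀ z, Φ z 1 = φ z := by
    intro z
    have := Φκ z 1
    rwa [map_one, map_one, inv_one, act_one] at this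
  have Φe : ∀ m z, Φ (act (iota m) z) = shift (κ m) (Φ z) := by
    intro m z
    funext γ
    by_cases h : ∃ m', κ m' = γ
    · obtain ⟨m', rfl⟩ := h
      rw [Φκ]
      show _ = Φ z ((κ m)⁻¹ * κ m')
      have h1 : (κ m)⁻¹ * κ m' = κ (m⁻¹ * m') := by rw [map_mul, map_inv]
      rw [h1, Φκ, ← act_mul, map_mul, map_inv, mul_inv_rev, inv_inv]
    · rw [Φ0 _ _ h]
      show _ = Φ z ((κ m)⁻¹ * γ)
      rw [Φ0]
      rintro ⟨m', hm'⟩
      exact h ⟨m * m', by rw [map_mul, hm', mul_inv_cancel_left]⟩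
  have Φm : Measurable Φ := by
    refine measurable_pi_iff.2 fun γ => ?_
    by_cases h : ∃ m, κ m = γ
    · obtain ⟨m, rfl⟩ := h
      have : (fun z => Φ z (κ m)) = fun z => φ (act (iota m)⁻¹ z) := funext fun z => Φκ z m
      rw [this]
      exact φm.comp (measurable_act _)
    · have : (fun z => Φ z γ) = fun _ => fun _ => false := funext fun z => Φ0 z γ h
      rw [this]
      exact measurable_const
  have Φf : ∀ z, ¬ NonFree z → IsFree (Φ z) := by
    intro z hz γ hγ
    have h1 : Φ z γ = φ z := by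
      have := congrFun hγ γ
      rw [← this]
      show Φ z (γ⁻¹ * γ) = φ z
      rw [inv_mul_cancel, Φ1]
    by_cases h : ∃ m, κ m = γ
    · obtain ⟨m, rfl⟩ := h
      rw [Φκ] at h1
      have h2 := φi h1
      by_cases h3 : (iota m)⁻¹ = 1
      · have h4 : iota m = iota 1 := by rw [map_one]; exact inv_eq_one.1 h3
        rw [iota_inj h4, map_one]
      · exact absurd ⟨_, h3, h2⟩ hz
    · rw [Φ0 _ _ h] at h1
      exact absurd h1.symm (φ0 z)
  have Φorb : ∀ z z' γ, Φ z' = shift γ (Φ z) → ∃ m, z' = act (iota m) z := by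
    intro z z' γ h
    have h1 : φ z' = Φ z γ⁻¹ := by
      rw [← Φ1 z', h]
      show Φ z (γ⁻¹ * 1) = _
      rw [mul_one]
    by_cases h2 : ∃ m, κ m = γ⁻¹
    · obtain ⟨m, hm⟩ := h2
      rw [← hm, Φκ] at h1
      exact ⟨m⁻¹, by rw [map_inv]; exact φi h1⟩
    · rw [Φ0 _ _ h2] at h1
      exact absurd h1 (φ0 z')
  -- uniformity sets
  set U : ℕ → Set (Γ → ℕ → Bool) := fun k =>
    {x | ∀ (g : FreeGroup (Fin 2)) (n : ℕ), f (shift (j g) x) n = f x (ρ k g n)} with hU
  have hUm : ∀ k, MeasurableSet (U k) := by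
    intro k
    have : U k = ⋂ (g : FreeGroup (Fin 2)) (n : ℕ),
        {x | f (shift (j g) x) n = f x (ρ k g n)} := by
      ext x; simp only [hU, Set.mem_iInter]; rfl
    rw [this]
    refine MeasurableSet.iInter fun g => MeasurableSet.iInter fun n => ?_
    exact measurableSet_eq_fun
      ((measurable_pi_apply n).comp (hf.comp (measurable_shift (j g))))
      ((measurable_pi_apply _).comp hf)
  have hUx : ∀ x, IsFree x → ∃ k, x ∈ U k := by
    intro x hx
    obtain ⟨p, hpb, hpc, hp⟩ := hu x hx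
    obtain ⟨k, hk⟩ := hP ⟨p, hpb, hpc⟩
    refine ⟨k, ?_⟩
    have hpk : ∀ i n, ρ k (FreeGroup.of i) n = p i n := by
      intro i n
      rw [ρo, hk]
    have key : ∀ g h : FreeGroup (Fin 2), ∀ n,
        f (shift (j (g * h)) x) n = f (shift (j h) x) (ρ k g n) := by
      intro g
      induction g using FreeGroup.induction_on with
      | C1 => intro h n; rw [one_mul, ρ1]
      | of i =>
        intro h n
        rw [map_mul, shift_mul, hp h i, hpk]
        rfl
      | inv_of i _ =>
        intro h n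
        have h1 := hp ((FreeGroup.of i)⁻¹ * h) i
        rw [← shift_mul, ← map_mul, mul_inv_cancel_left] at h1
        rw [h1]
        show _ = f _ (p i (ρ k (FreeGroup.of i)⁻¹ n))
        rw [← hpk, ← ρm, inv_mul_cancel, ρ1]
      | mul g1 g2 ih1 ih2 =>
        intro h n
        rw [mul_assoc, ih1, ih2, ρm]
    intro g n
    have := key g 1 n
    rwa [mul_one, map_one, shift_one] at this
  -- the sets to be avoided
  obtain ⟨N, Nm, Ncov, Nsub, N3⟩ := nonfree_cover
  set D : ℕ → Cf → Bool := fun e z =>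
    f (shift (j (w e.unpair.1 e.unpair.2)) (Φ z)) e.unpair.2 with hD
  have Dm : ∀ e, Measurable (D e) := by
    intro e
    exact (measurable_pi_apply _).comp (hf.comp ((measurable_shift _).comp Φm))
  set B : ℕ → Set Cf := fun e =>
    {z | ¬ NonFree z ∧ (Φ z ∈ U e.unpair.1 ∧ ∀ k' < e.unpair.1, Φ z ∉ U k') ∧
      D e (act (thp e 1) z) ≠ D e z} with hB
  have Bm : ∀ e, MeasurableSet (B e) := by
    intro e
    refine MeasurableSet.inter measurableSet_nonFree.compl (MeasurableSet.inter
      (MeasurableSet.inter (Φm (hUm _)) ?_) ?_)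
    · have : {z : Cf | ∀ k' < e.unpair.1, Φ z ∉ U k'} =
          ⋂ (k' : ℕ) (_ : k' < e.unpair.1), (Φ ⁻¹' (U k'))ᶜ := by
        ext z; simp
      show MeasurableSet {z : Cf | ∀ k' < e.unpair.1, Φ z ∉ U k'}
      rw [this]
      exact MeasurableSet.iInter fun k' => MeasurableSet.iInter fun _ => (Φm (hUm _)).compl
    · exact (measurableSet_eq_fun ((Dm e).comp (measurable_act _)) (Dm e)).compl
  obtain ⟨z, hz, hzA⟩ := exists_avoid (fun e => N e ∪ B e) (fun e => (Nm e).union (Bm e)) (by
    rintro e z hz ⟨h0, h1, h2⟩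
    by_cases hn : NonFree z
    · refine N3 e z hz ⟨?_, ?_, ?_⟩
      · exact h0.resolve_right fun h => h.1 hn
      · exact h1.resolve_right fun h => h.1 (hn.act _)
      · exact h2.resolve_right fun h => h.1 (hn.act _)
    · have b0 : z ∈ B e := h0.resolve_left fun h => hn (Nsub _ _ h)
      have b1 : act (thp e 1) z ∈ B e := h1.resolve_left fun h => hn (Nsub _ _ h).of_act
      have b2 : act (thp e 2) z ∈ B e := h2.resolve_left fun h => hn (Nsub _ _ h).of_act
      have e1 : act (thp e 1) (act (thp e 1) z) = act (thp e 2) z := by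
        rw [← act_mul, ← thp_add]; rfl
      have e2 : act (thp e 1) (act (thp e 2) z) = z := by
        rw [← act_mul, ← thp_add]
        have : (1 : ZMod 3) + 2 = 0 := by decide
        rw [this, thp_zero, act_one]
      have d0 := b0.2.2
      have d1 := b1.2.2
      have d2 := b2.2.2
      rw [e1] at d1
      rw [e2] at d2
      revert d0 d1 d2
      cases D e z <;> cases D e (act (thp e 1) z) <;> cases D e (act (thp e 2) z) <;> simp)
  have hfree : ¬ NonFree z := by
    intro h
    obtain ⟨n, hn⟩ := Ncov z hz h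
    exact hzA n (Or.inl hn)
  have hx := Φf z hfree
  have hex := hUx _ hx
  set k := Nat.find hex with hk
  have hkU : Φ z ∈ U k := Nat.find_spec hex
  have hkl : ∀ k' < k, Φ z ∉ U k' := fun k' h => Nat.find_min hex h
  have hDeq : ∀ n, f (shift (j (w k n)) (Φ (act (thp (Nat.pair k n) 1) z))) n =
      f (shift (j (w k n)) (Φ z)) n := by
    intro n
    by_contra hne
    apply hzA (Nat.pair k n)
    right
    refine ⟨hfree, ?_, ?_⟩
    · rw [Nat.unpair_pair]; exact ⟨hkU, hkl⟩
    · simp only [hD, Nat.unpair_pair]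
      exact hne
  set θ := thp (Nat.pair k 0) 1 with hθ
  have hy : ∀ n, shift (j (w k n)) (Φ (act (thp (Nat.pair k n) 1) z)) =
      shift (j (w k 0)) (Φ (act θ z)) := by
    intro n
    cases n with
    | zero => rfl
    | succ n =>
      have h1 : thp (Nat.pair k (n + 1)) 1 = iota (FreeGroup.of (k, n)) * θ := by
        simp only [iota, FreeGroup.lift_apply_of, hθ, inv_mul_cancel_right]
      rw [h1, act_mul, Φe, hκof, ← shift_mul, mul_inv_cancel_left]
  refine ⟨Φ z, shift (j (w k 0)) (Φ (act θ z)), hx, ?_, ?_, ?_⟩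
  · exact (Φf _ fun h => hfree h.of_act).shift _
  · intro γ hγ
    have h1 : Φ (act θ z) = shift ((j (w k 0))⁻¹ * γ) (Φ z) := by
      rw [shift_mul, hγ, ← shift_mul, inv_mul_cancel, shift_one]
    obtain ⟨m, hm⟩ := Φorb _ _ _ h1
    have h2 : act ((iota m)⁻¹ * θ) z = z := by
      rw [act_mul, hm, ← act_mul, inv_mul_cancel, act_one]
    by_cases h3 : (iota m)⁻¹ * θ = 1
    · exact iota_ne_thp m (Nat.pair k 0) (inv_mul_eq_one.1 h3)
    · exact hfree ⟨_, h3, h2⟩
  · refine ⟨π k, hπb k, hπc k, ?_⟩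
    funext n
    show f (Φ z) (π k n) = f _ n
    rw [← hy n, hDeq n, hkU (w k n) n, hρw]

end Pool.Agent.RI
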