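import Pool.Agent.Helper71.RI.Perm

/-!
# Free subgroups of free groups
-/

set_option autoImplicit false

namespace Pool.Agent.RI

/-- The conjugates `a^j b a^(-j)`. -/
def vv (j : ℕ) : FreeGroup (Fin 2) :=
  FreeGroup.of 0 ^ j * FreeGroup.of 1 * (FreeGroup.of 0 ^ j)⁻¹

private def shiftAut : MulAut (FreeGroup ℤ) := FreeGroup.freeGroupCongr (Equiv.addRight (1 : ℤ))

private theorem shiftAut_pow (j : ℕ) :
    (shiftAut ^ j) (FreeGroup.of (0 : ℤ)) = FreeGroup.of (j : ℤ) := by
  induction j with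
  | zero => simp
  | succ j ih =>
    rw [pow_succ', MulAut.mul_apply, ih]
    simp [shiftAut, FreeGroup.freeGroupCongr]

theorem vv_inj : Function.Injective (FreeGroup.lift vv : FreeGroup ℕ →* FreeGroup (Fin 2)) := by
  let φ : Multiplicative ℤ →* MulAut (FreeGroup ℤ) := zpowersHom _ shiftAut
  let ψ : FreeGroup (Fin 2) →* SemidirectProduct (FreeGroup ℤ) (Multiplicative ℤ) φ :=
    FreeGroup.lift ![SemidirectProduct.inr (Multiplicative.ofAdd 1),
      SemidirectProduct.inl (FreeGroup.of 0)]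
  have h1 : ∀ j : ℕ, ψ (vv j) = SemidirectProduct.inl (FreeGroup.of (j : ℤ)) := by
    intro j
    have h2 : φ (Multiplicative.ofAdd (1 : ℤ) ^ j) (FreeGroup.of (0 : ℤ)) = FreeGroup.of (j : ℤ) := by
      rw [map_pow]
      have : φ (Multiplicative.ofAdd (1 : ℤ)) = shiftAut := by
        simp [φ]
      rw [this, shiftAut_pow]
    rw [← h2, SemidirectProduct.inl_aut]
    simp [vv, ψ]
  have h3 : ψ.comp (FreeGroup.lift vv) =
      (SemidirectProduct.inl).comp (FreeGroup.map (fun j : ℕ => (j : ℤ))) := by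
    ext j
    · simp [h1]
    · simp [h1]
  have h4 : Function.Injective (ψ.comp (FreeGroup.lift vv)) := by
    rw [h3, MonoidHom.coe_comp]
    exact SemidirectProduct.inl_injective.comp (FreeGroup.map_injective Nat.cast_injective)
  exact Function.Injective.of_comp (f := ψ) (by simpa [MonoidHom.coe_comp] using h4)

/-- The group element attached to a letter of the `k`-th diagonal permutation. -/
def Lt.el (k : ℕ) : Lt → FreeGroup ℕ
  | .pos j => FreeGroup.of (Nat.pair k j)
  | .neg j => (FreeGroup.of (Nat.pair k j))⁻¹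
  | .dif j j' => FreeGroup.of (Nat.pair k j) * (FreeGroup.of (Nat.pair k j'))⁻¹

/-- Opposite letter. -/
private def opp (x : ℕ × Bool) : ℕ × Bool := (x.1, !x.2)

private theorem opp_inj {x y : ℕ × Bool} (h : opp x = opp y) : x = y := by
  rcases x with ⟨a, b⟩; rcases y with ⟨c, d⟩
  simp only [opp, Prod.mk.injEq] at h
  ext
  · exact h.1
  · simpa using h.2

private theorem opp_opp (x : ℕ × Bool) : opp (opp x) = x := by
  rcases x with ⟨a, b⟩; simp [opp]

private theorem inv_mk1 (x : ℕ × Bool) : (FreeGroup.mk [x])⁻¹ = FreeGroup.mk [opp x] := by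
  rcases x with ⟨a, b⟩
  simp [opp, FreeGroup.inv_mk, FreeGroup.invRev]

private theorem toWord_mk1_mul (x : ℕ × Bool) (w : FreeGroup ℕ) :
    (w.toWord.head? = some (opp x) → (FreeGroup.mk [x] * w).toWord = w.toWord.tail) ∧
    (w.toWord.head? ≠ some (opp x) → (FreeGroup.mk [x] * w).toWord = x :: w.toWord) := by
  have h1 : (FreeGroup.mk [x] * w).toWord = FreeGroup.reduce (x :: w.toWord) := by
    conv_lhs => rw [← FreeGroup.mk_toWord (x := w)]
    rw [FreeGroup.mul_mk, FreeGroup.toWord_mk]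
    rfl
  rw [h1, FreeGroup.reduce.cons, FreeGroup.reduce_toWord]
  cases hw : w.toWord with
  | nil => simp
  | cons hd tl =>
    simp only [List.head?_cons, Option.some.injEq, List.tail_cons]
    constructor
    · intro h
      subst h
      simp [opp]
    · intro h
      rw [if_neg]
      rintro ⟨h2, h3⟩
      apply h
      rcases hd with ⟨a, b⟩; rcases x with ⟨c, d⟩
      simp only [opp] at *
      subst h2 h3
      simp

private theorem ne_opp_of_reduced (w : FreeGroup ℕ) (x y : ℕ × Bool) (l : List (ℕ × Bool))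
    (h : w.toWord = x :: y :: l) : y ≠ opp x := by
  rintro rfl
  have h1 : FreeGroup.reduce w.toWord = w.toWord := FreeGroup.reduce_toWord w
  rw [h] at h1
  exact FreeGroup.reduce.not (L₁ := x :: opp x :: l) (L₂ := []) (L₃ := l) (x := x.1) (b := x.2)
    (by rw [h1]; rcases x with ⟨a, b⟩; rfl)

private theorem diffs_inj (s : ℕ × ℕ → ℕ × Bool) (hs : Function.Injective s) :
    Function.Injective (FreeGroup.lift (fun e : ℕ × ℕ =>
      (FreeGroup.mk [s (e.1, e.2 + 1)])⁻¹ * FreeGroup.mk [s (e.1, 0)])) := by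
  let X : ℕ × ℕ → Set (FreeGroup ℕ) := fun e =>
    {w | w.toWord.head? = some (opp (s (e.1, e.2 + 1)))}
  let Y : ℕ × ℕ → Set (FreeGroup ℕ) := fun e =>
    {w | ∃ l, w.toWord = opp (s (e.1, 0)) :: s (e.1, e.2 + 1) :: l}
  refine FreeGroup.injective_lift_of_ping_pong _ X Y ?_ ?_ ?_ ?_ ?_ ?_
  · intro e
    refine ⟨FreeGroup.mk [opp (s (e.1, e.2 + 1))], ?_⟩
    simp [X, FreeGroup.toWord_mk]
  · intro e e' hne
    refine Set.disjoint_left.2 fun w h1 h2 => hne ?_
    have h3 : opp (s (e.1, e.2 + 1)) = opp (s (e'.1, e'.2 + 1)) :=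
      Option.some.inj (h1.symm.trans h2)
    have h4 := hs (opp_inj h3)
    simp only [Prod.mk.injEq, add_left_inj] at h4
    exact Prod.ext h4.1 h4.2
  · intro e e' hne
    refine Set.disjoint_left.2 fun w h1 h2 => hne ?_
    obtain ⟨l, h1⟩ := h1
    obtain ⟨l', h2⟩ := h2
    rw [h1] at h2
    simp only [List.cons.injEq] at h2
    have h4 := hs h2.2.1
    simp only [Prod.mk.injEq, add_left_inj] at h4
    exact Prod.ext h4.1 h4.2
  · intro e e'
    refine Set.disjoint_left.2 fun w h1 h2 => ?_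
    obtain ⟨l, h2⟩ := h2
    have h1' : w.toWord.head? = some (opp (s (e.1, e.2 + 1))) := h1
    rw [h2, List.head?_cons] at h1'
    have h4 := hs (opp_inj (Option.some.inj h1'))
    simp at h4
  · rintro e _ ⟨w, hw, rfl⟩
    have hw' : ¬ ∃ l, w.toWord = opp (s (e.1, 0)) :: s (e.1, e.2 + 1) :: l := hw
    show ((((FreeGroup.mk [s (e.1, e.2 + 1)])⁻¹ * FreeGroup.mk [s (e.1, 0)]) • w).toWord).head? =
      some (opp (s (e.1, e.2 + 1)))
    have hne : s (e.1, e.2 + 1) ≠ s (e.1, 0) := fun h => by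
      have := hs h; simp at this
    rw [smul_eq_mul, mul_assoc, inv_mk1]
    by_cases hh : w.toWord.head? = some (opp (s (e.1, 0)))
    · have h1 := (toWord_mk1_mul (s (e.1, 0)) w).1 hh
      have h2 : (FreeGroup.mk [s (e.1, 0)] * w).toWord.head? ≠
          some (opp (opp (s (e.1, e.2 + 1)))) := by
        rw [h1, opp_opp]
        intro h3
        apply hw'
        cases hw2 : w.toWord with
        | nil => rw [hw2] at hh; simp at hh
        | cons a l =>
          rw [hw2] at hh h3
          simp only [List.head?_cons, Option.some.injEq, List.tail_cons] at hh h3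
          cases l with
          | nil => simp at h3
          | cons b l =>
            simp only [List.head?_cons, Option.some.injEq] at h3
            exact ⟨l, by rw [hh, h3]⟩
      rw [(toWord_mk1_mul _ _).2 h2, List.head?_cons]
    · have h1 := (toWord_mk1_mul (s (e.1, 0)) w).2 hh
      have h2 : (FreeGroup.mk [s (e.1, 0)] * w).toWord.head? ≠
          some (opp (opp (s (e.1, e.2 + 1)))) := by
        rw [h1, opp_opp, List.head?_cons]
        intro h3
        exact hne (Option.some.inj h3).symm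
      rw [(toWord_mk1_mul _ _).2 h2, List.head?_cons]
  · rintro e _ ⟨w, hw, rfl⟩
    have hw' : ¬ w.toWord.head? = some (opp (s (e.1, e.2 + 1))) := hw
    show ∃ l, ((((FreeGroup.mk [s (e.1, e.2 + 1)])⁻¹ * FreeGroup.mk [s (e.1, 0)])⁻¹ • w).toWord) =
      opp (s (e.1, 0)) :: s (e.1, e.2 + 1) :: l
    have hne : s (e.1, e.2 + 1) ≠ s (e.1, 0) := fun h => by
      have := hs h; simp at this
    rw [smul_eq_mul, mul_inv_rev, inv_inv, mul_assoc, inv_mk1]
    have h1 := (toWord_mk1_mul (s (e.1, e.2 + 1)) w).2 hw'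
    have h2 : (FreeGroup.mk [s (e.1, e.2 + 1)] * w).toWord.head? ≠
        some (opp (opp (s (e.1, 0)))) := by
      rw [h1, opp_opp, List.head?_cons]
      intro h3
      exact hne (Option.some.inj h3)
    exact ⟨w.toWord, by rw [(toWord_mk1_mul _ _).2 h2, h1]⟩

theorem kappa_inj (code : ℕ → ℕ → Lt)
    (hinj : ∀ k, Function.Injective (fun n => (code k n).main))
    (hdis : ∀ k n j j', code k n = Lt.dif j j' → ∀ m, (code k m).main.1 ≠ j') :
    Function.Injective (FreeGroup.lift (fun e : ℕ × ℕ =>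
      ((code e.1 (e.2 + 1)).el e.1)⁻¹ * (code e.1 0).el e.1)) := by
  classical
  let r : FreeGroup ℕ →* FreeGroup ℕ := FreeGroup.lift fun m =>
    if ∃ k n j j', code k n = Lt.dif j j' ∧ m = Nat.pair k j' then 1 else FreeGroup.of m
  let s : ℕ × ℕ → ℕ × Bool := fun e => (Nat.pair e.1 (code e.1 e.2).main.1, (code e.1 e.2).main.2)
  have hs : Function.Injective s := by
    rintro ⟨k, n⟩ ⟨k', n'⟩ h
    simp only [s, Prod.mk.injEq, Nat.pair_eq_pair] at h
    obtain ⟨⟨rfl, h2⟩, h3⟩ := h
    have := hinj k (Prod.ext h2 h3 : (code k n).main = (code k n').main)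
    rw [this]
  have hgood : ∀ k n, ¬ ∃ k' n' j j', code k' n' = Lt.dif j j' ∧
      Nat.pair k (code k n).main.1 = Nat.pair k' j' := by
    rintro k n ⟨k', n', j, j', h1, h2⟩
    rw [Nat.pair_eq_pair] at h2
    obtain ⟨rfl, h2⟩ := h2
    exact hdis k n' j j' h1 n h2
  have hr : ∀ k n, r ((code k n).el k) = FreeGroup.mk [s (k, n)] := by
    intro k n
    have hg := hgood k n
    cases hc : code k n with
    | pos j =>
      rw [hc] at hg
      simp only [Lt.el, r, FreeGroup.lift_apply_of, s, hc, Lt.main] at hg ⊢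
      rw [if_neg hg]
      rfl
    | neg j =>
      rw [hc] at hg
      simp only [Lt.el, r, FreeGroup.lift_apply_of, map_inv, s, hc, Lt.main] at hg ⊢
      rw [if_neg hg]
      rfl
    | dif j j' =>
      rw [hc] at hg
      simp only [Lt.el, r, FreeGroup.lift_apply_of, map_inv, map_mul, s, hc, Lt.main] at hg ⊢
      rw [if_neg hg, if_pos ⟨k, n, j, j', hc, rfl⟩]
      simp
      rfl
  have hcomp : r.comp (FreeGroup.lift (fun e : ℕ × ℕ =>
      ((code e.1 (e.2 + 1)).el e.1)⁻¹ * (code e.1 0).el e.1)) =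
      FreeGroup.lift (fun e : ℕ × ℕ =>
      (FreeGroup.mk [s (e.1, e.2 + 1)])⁻¹ * FreeGroup.mk [s (e.1, 0)]) := by
    ext e
    simp only [MonoidHom.comp_apply, FreeGroup.lift_apply_of, map_mul, map_inv, hr]
  have hinj2 := diffs_inj s hs
  rw [← hcomp] at hinj2
  exact Function.Injective.of_comp (f := r) (by simpa [MonoidHom.coe_comp] using hinj2)

end Pool.Agent.RI
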