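import Pool.Agent.Helper71.RI.Word

/-!
# Measurability of the nonfree part and a code (helper21)
-/

set_option autoImplicit false

namespace Pool.Agent.RI

theorem measurable_act (g : Lam) : Measurable (act g) := by
  unfold act
  refine measurable_pi_iff.2 fun h => ?_
  exact measurable_pi_apply (g⁻¹ * h)

theorem measurableSet_nonFree : MeasurableSet {z : Cf | NonFree z} := by
  have h1 : {z : Cf | NonFree z} = ⋃ g : Lam, ⋃ _ : g ≠ 1, {z : Cf | act g z = z} := by
    ext z
    simp [NonFree]
  rw [h1]
  refine MeasurableSet.iUnion fun g => MeasurableSet.iUnion fun _ => ?_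
  have h2 : {z : Cf | act g z = z} = ⋂ h : Lam, ⋂ m : ℕ, {z : Cf | z (g⁻¹ * h) m = z h m} := by
    ext z
    simp only [Set.mem_setOf_eq, Set.mem_iInter]
    constructor
    · intro hz h m
      exact congrFun (congrFun hz h) m
    · intro hz
      funext h m
      exact hz h m
  rw [h2]
  refine MeasurableSet.iInter fun h => MeasurableSet.iInter fun m => ?_
  have m1 : Measurable (fun z : Cf => z (g⁻¹ * h) m) :=
    (measurable_pi_apply m).comp (measurable_pi_apply (g⁻¹ * h))
  have m2 : Measurable (fun z : Cf => z h m) :=
    (measurable_pi_apply m).comp (measurable_pi_apply h)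
  exact measurableSet_eq_fun m1 m2

/-- A Borel injection of the configurations into Cantor space which omits the zero sequence. -/
theorem exists_code : ∃ φ : Cf → (ℕ → Bool), Measurable φ ∧ Function.Injective φ ∧
    ∀ z, φ z ≠ fun _ => false := by
  classical
  obtain ⟨f, hf⟩ := exists_injective_nat (Lam × ℕ × Bool)
  let bit : Lam × ℕ × Bool → Cf → Bool := fun a z =>
    if a.2.2 then decide (z a.1 a.2.1 = 1) else decide (z a.1 a.2.1 = 2)
  let φ : Cf → (ℕ → Bool) := fun z k => if k = 0 then true else
    if h : ∃ a, f a + 1 = k then bit h.choose z else false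
  have hφ : ∀ z a, φ z (f a + 1) = bit a z := by
    intro z a
    have h : ∃ b, f b + 1 = f a + 1 := ⟨a, rfl⟩
    have hc : h.choose = a := hf (by have := h.choose_spec; omega)
    have : φ z (f a + 1) = bit h.choose z := by
      simp only [φ]
      rw [if_neg (Nat.succ_ne_zero _), dif_pos h]
    rw [this, hc]
  refine ⟨φ, ?_, ?_, ?_⟩
  · refine measurable_pi_iff.2 fun k => ?_
    by_cases h0 : k = 0
    · have : (fun z => φ z k) = fun _ => true := by
        funext z; simp [φ, h0]
      rw [this]; exact measurable_const
    · by_cases h : ∃ a, f a + 1 = k
      · have : (fun z => φ z k) = fun z => bit h.choose z := by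
          funext z
          simp only [φ]
          rw [if_neg h0, dif_pos h]
        rw [this]
        set a := h.choose
        have hb : (fun z => bit a z) = (fun c : ZMod 3 => if a.2.2 then decide (c = 1) else decide (c = 2)) ∘
            (fun z : Cf => z a.1 a.2.1) := by
          funext z; simp [bit]
        rw [hb]
        exact (measurable_of_countable _).comp
          ((measurable_pi_apply a.2.1).comp (measurable_pi_apply a.1))
      · have : (fun z => φ z k) = fun _ => false := by
          funext z
          simp only [φ]
          rw [if_neg h0, dif_neg h]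
        rw [this]; exact measurable_const
  · intro z w hzw
    funext g m
    have e1 : bit (g, m, true) z = bit (g, m, true) w := by
      rw [← hφ, ← hφ, hzw]
    have e2 : bit (g, m, false) z = bit (g, m, false) w := by
      rw [← hφ, ← hφ, hzw]
    simp only [bit, if_true, decide_eq_decide, Bool.false_eq_true, if_false] at e1 e2
    generalize z g m = a at e1 e2
    generalize w g m = b at e1 e2
    revert a b
    decide
  · intro z hz
    have : φ z 0 = false := by rw [hz]
    simp [φ] at this

end Pool.Agent.RI
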