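import Pool.Agent.Helper71.RI.Word
import Pool.Agent.Helper16.UR.Run

/-!
# Player II does not win the game number `n`
-/

set_option autoImplicit false

namespace Pool.Agent.RI

/-- the exponent of the first letter of index `n` -/
noncomputable def ldE (n : ℕ) (g : Lam) : ZMod 3 := (left_dec n g).choose

/-- the remaining word -/
noncomputable def ldG (n : ℕ) (g : Lam) : Lam := (left_dec n g).choose_spec.choose

theorem ld_spec (n : ℕ) (g : Lam) :
    fst (ldG n g) ≠ some n ∧ g = thp n (ldE n g) * ldG n g :=
  (left_dec n g).choose_spec.choose_spec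

theorem ld_eq {n : ℕ} {e : ZMod 3} {g : Lam} (h : fst g ≠ some n) :
    ldE n (thp n e * g) = e ∧ ldG n (thp n e * g) = g := by
  obtain ⟨h1, h2⟩ := ld_spec n (thp n e * g)
  exact left_uniq h1 h h2.symm

theorem thp_mul_eq_one {n : ℕ} {e : ZMod 3} {g : Lam} (h : fst g ≠ some n)
    (h1 : thp n e * g = 1) : e = 0 ∧ g = 1 := by
  have h2 : fst (1 : Lam) ≠ some n := by
    rw [fst_one]
    exact Option.some_ne_none n |>.symm
  refine left_uniq h h2 ?_
  rw [h1, thp_zero, one_mul]

open Classical in
/-- the moves of the three simultaneous games -/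
noncomputable def nStep (n : ℕ) (τ : List Cf → Cf) (H : ZMod 3 → List Cf) (j : ZMod 3) :
    Cf × Cf :=
  let I : Cf := fun g m =>
    if g = 1 then j else ((H (j + ldE n g))[2 * (wt (ldG n g) + m) + 1]?).getD default (ldG n g) m
  (I, τ (H j ++ [I]))

theorem no_II (n : ℕ) (A : Set Cf)
    (h3 : ∀ z, IsZ z → ¬ (z ∈ A ∧ act (thp n 1) z ∈ A ∧ act (thp n 2) z ∈ A)) :
    ¬ ∃ τ : List Cf → Cf, ∀ X : ℕ → Cf, Follows 1 τ X → nrm (res n X) ∈ A := by
  classical
  rintro ⟨τ, hτ⟩
  set X : ZMod 3 → ℕ → Cf := runX (nStep n τ) with hX
  have hone : fst (1 : Lam) ≠ some n := by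
    rw [fst_one]
    exact Option.some_ne_none n |>.symm
  -- the plays follow `τ`
  have hF : ∀ j, Follows 1 τ (X j) := by
    intro j k hk
    obtain ⟨r, rfl⟩ : ∃ r, k = 2 * r + 1 := ⟨k / 2, by omega⟩
    have e1 : X j (2 * r + 1) = (nStep n τ (runH (nStep n τ) r) j).2 := runX_odd _ j r
    have e0 : X j (2 * r) = (nStep n τ (runH (nStep n τ) r) j).1 := runX_even _ j r
    have e2 : (List.range (2 * r + 1)).map (X j)
        = runH (nStep n τ) r j ++ [(nStep n τ (runH (nStep n τ) r) j).1] := by
      rw [List.range_succ, List.map_append, runH_eq, List.map_singleton, e0]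
    rw [e1, e2]
    rfl
  -- the values of the moves of player I
  have hI1 : ∀ j r m, X j (2 * r) 1 m = j := by
    intro j r m
    have e0 : X j (2 * r) = (nStep n τ (runH (nStep n τ) r) j).1 := runX_even _ j r
    rw [e0]
    simp [nStep]
  have hI2 : ∀ (j e : ZMod 3) (g : Lam) (r m : ℕ), fst g ≠ some n → thp n e * g ≠ 1 →
      wt g + m < r → X j (2 * r) (thp n e * g) m = X (j + e) (2 * (wt g + m) + 1) g m := by
    intro j e g r m hg hne hr
    have e0 : X j (2 * r) = (nStep n τ (runH (nStep n τ) r) j).1 := runX_even _ j r
    rw [e0]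
    obtain ⟨l1, l2⟩ := ld_eq (e := e) hg
    simp only [nStep, if_neg hne, l1, l2]
    rw [runH_getElem _ _ (by omega)]
    rfl
  -- the common configuration
  set s : Cf := fun h m =>
    if h = 1 ∧ m = n then 0 else X (ldE n h) (2 * (wt (ldG n h) + m) + 1) (ldG n h) m with hs
  have hs' : ∀ (e : ZMod 3) (g : Lam) (m : ℕ), fst g ≠ some n → ¬ (thp n e * g = 1 ∧ m = n) →
      s (thp n e * g) m = X e (2 * (wt g + m) + 1) g m := by
    intro e g m hg hne
    obtain ⟨l1, l2⟩ := ld_eq (e := e) hg
    simp only [hs, if_neg hne, l1, l2]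
  set y : Cf := nrm s with hy
  have hyZ : IsZ y := isZ_nrm s
  have key : ∀ j, nrm (res n (X j)) = act (thp n (-j)) y := by
    intro j
    refine IsZ.ext (isZ_nrm _) (hyZ.act _) (fun g m hgm => ?_)
    rw [nrm_apply hgm]
    have ha : act (thp n (-j)) y g m = y (thp n j * g) m := by
      unfold act
      rw [← thp_neg, neg_neg]
    rw [ha]
    by_cases hf : fst g = some n
    · -- owner I, nontrivial word
      have hg1 : g ≠ 1 := by
        intro h
        rw [h] at hf
        exact hone hf
      obtain ⟨e, g', hg', rfl⟩ := left_dec n g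
      have he : e ≠ 0 := by
        intro h
        rw [h, thp_zero, one_mul] at hf
        exact hg' hf
      have hown : own n (thp n e * g') m := Or.inl hf
      have hwt := wt_mul he hg'
      unfold res
      rw [if_pos hown, hI2 j e g' _ m hg' hg1 (by omega), ← mul_assoc, ← thp_add]
      have hmn : g' = 1 → m ≠ n := by
        intro h hmn
        rw [h, mul_one, lst_thp he, hmn] at hgm
        exact hgm rfl
      have hlst : lst (thp n (j + e) * g') ≠ some m := by
        by_cases h1 : g' = 1
        · by_cases h2 : j + e = 0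
          · rw [h1, h2, thp_zero, one_mul, lst_one]
            exact Option.some_ne_none m |>.symm
          · rw [h1, mul_one, lst_thp h2]
            intro hc
            exact hmn h1 (Option.some.inj hc).symm
        · rw [lst_mul hg' h1, ← lst_mul (e := e) hg' h1]
          exact hgm
      rw [hy, nrm_apply hlst, hs' _ _ _ hg']
      rintro ⟨h1, h2⟩
      exact hmn (thp_mul_eq_one hg' h1).2 h2
    · by_cases hg1 : g = 1
      · subst hg1
        by_cases hmn : m = n
        · subst hmn
          have hown : own m (1 : Lam) m := Or.inr ⟨rfl, rfl⟩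
          unfold res
          rw [if_pos hown, hI1, mul_one]
          have h1 := hyZ.thp 1 m j
          rw [one_mul] at h1
          rw [h1, hy, nrm_apply hgm]
          simp [hs]
        · have hown : ¬ own n (1 : Lam) m := by
            rintro (h | h)
            · exact hf h
            · exact hmn h.2
          unfold res
          rw [if_neg hown]
          have hlst : lst (thp n j * 1) ≠ some m := by
            rw [mul_one]
            by_cases h2 : j = 0
            · rw [h2, thp_zero, lst_one]
              exact Option.some_ne_none m |>.symm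
            · rw [lst_thp h2]
              intro hc
              exact hmn (Option.some.inj hc).symm
          rw [hy, nrm_apply hlst, hs' _ _ _ hf]
          rintro ⟨_, h2⟩
          exact hmn h2
      · have hown : ¬ own n g m := by
          rintro (h | h)
          · exact hf h
          · exact hg1 h.1
        unfold res
        rw [if_neg hown]
        have hlst : lst (thp n j * g) ≠ some m := by
          rw [lst_mul hf hg1]
          exact hgm
        rw [hy, nrm_apply hlst, hs' _ _ _ hf]
        rintro ⟨h1, _⟩
        exact hg1 (thp_mul_eq_one hf h1).2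
  have hmem : ∀ j : ZMod 3, act (thp n (-j)) y ∈ A := by
    intro j
    rw [← key j]
    exact hτ _ (hF j)
  refine h3 y hyZ ⟨?_, ?_, ?_⟩
  · have h0 := hmem 0
    rwa [neg_zero, thp_zero, act_one] at h0
  · have h0 := hmem 2
    have e : (-2 : ZMod 3) = 1 := by decide
    rwa [e] at h0
  · have h0 := hmem 1
    have e : (-1 : ZMod 3) = 2 := by decide
    rwa [e] at h0

end Pool.Agent.RI
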