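import Mathlib

/-!
# A computable diagonal permutation
-/

set_option autoImplicit false

namespace Pool.Agent.RI

/-- Letters used at an argument `n` of the diagonal permutation. -/
inductive Lt : Type
  | pos (j : ℕ) : Lt
  | neg (j : ℕ) : Lt
  | dif (j j' : ℕ) : Lt

/-- The main index of a letter, with its sign. -/
def Lt.main : Lt → ℕ × Bool
  | .pos j => (j, true)
  | .neg j => (j, false)
  | .dif j _ => (j, true)

namespace PermAux

/-- state of the construction: a finite involution and a bound for the used indices -/
abbrev St : Type := List (ℕ × ℕ) × ℕ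

/-- the first index coded by `e` -/
def ja (s : St) (e : ℕ) : ℕ := s.2 + e.unpair.1

/-- the second index coded by `e` -/
def jb (s : St) (e : ℕ) : ℕ := s.2 + e.unpair.2

/-- `m` is not yet in the domain -/
def free (s : St) (m : ℕ) : Bool := !(List.lookup m s.1).isSome

/-- the code `e` is acceptable -/
def good (V : ℕ → ℕ → ℕ) (a : St × ℕ) (e : ℕ) : Bool :=
  (!(ja a.1 e == jb a.1 e)) &&
    (free a.1 (V (ja a.1 e) a.2) || (V (ja a.1 e) a.2 == V (jb a.1 e) a.2))

theorem lookup_mem {m b : ℕ} : ∀ {D : List (ℕ × ℕ)}, List.lookup m D = some b →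
    m ∈ D.map Prod.fst
  | [], h => by simp at h
  | (x, y) :: D, h => by
    rw [List.lookup_cons] at h
    by_cases hx : m = x
    · simp [hx]
    · have : (m == x) = false := by simpa using hx
      rw [this] at h
      have := lookup_mem (D := D) h
      simp only [List.map_cons, List.mem_cons]
      exact Or.inr this

theorem exists_good (V : ℕ → ℕ → ℕ) (a : St × ℕ) : ∃ e, good V a e = true := by
  by_cases h : ∃ i, free a.1 (V (a.1.2 + i) a.2) = true
  · obtain ⟨i, hi⟩ := h
    refine ⟨Nat.pair i (i + 1), ?_⟩
    simp only [good, ja, jb, Nat.unpair_pair, hi]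
    simp
  · push Not at h
    have hmem : ∀ i, V (a.1.2 + i) a.2 ∈ (a.1.1.map Prod.fst).toFinset := by
      intro i
      have h1 := h i
      unfold free at h1
      have h2 : (List.lookup (V (a.1.2 + i) a.2) a.1.1).isSome = true := by simpa using h1
      obtain ⟨b, hb⟩ := Option.isSome_iff_exists.1 h2
      exact List.mem_toFinset.2 (lookup_mem hb)
    have hni : ¬ Function.Injective (fun i => V (a.1.2 + i) a.2) := by
      intro hinj
      have hfin : (Set.range (fun i => V (a.1.2 + i) a.2)).Finite :=
        ((a.1.1.map Prod.fst).toFinset.finite_toSet).subset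
          (by rintro _ ⟨i, rfl⟩; exact hmem i)
      exact Set.infinite_range_of_injective hinj hfin
    rw [Function.Injective] at hni
    push Not at hni
    obtain ⟨i, i', hV, hne⟩ := hni
    refine ⟨Nat.pair i i', ?_⟩
    simp only [good, ja, jb, Nat.unpair_pair]
    rw [hV]
    simp [hne]

/-- the least acceptable code -/
noncomputable def fnd (V : ℕ → ℕ → ℕ) (a : St × ℕ) : ℕ := Nat.find (exists_good V a)

/-- the update at an active stage -/
noncomputable def upd (V : ℕ → ℕ → ℕ) (a : St × ℕ) : St :=
  (bif free a.1 (V (ja a.1 (fnd V a)) a.2) then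
      (a.2, V (ja a.1 (fnd V a)) a.2) :: (V (ja a.1 (fnd V a)) a.2, a.2) :: a.1.1
    else (a.2, a.2) :: a.1.1,
    ja a.1 (fnd V a) + jb a.1 (fnd V a) + 1)

/-- one stage -/
noncomputable def stp (V : ℕ → ℕ → ℕ) (a : St × ℕ) : St :=
  bif free a.1 a.2 then upd V a else a.1

/-- the states -/
noncomputable def st (V : ℕ → ℕ → ℕ) (n : ℕ) : St :=
  Nat.rec (([], 0) : St) (fun k s => stp V (s, k)) n

/-- the permutation -/
noncomputable def pi (V : ℕ → ℕ → ℕ) (n : ℕ) : ℕ := (List.lookup n (st V (n + 1)).1).getD 0

section computable

theorem ja_comp : Computable₂ ja :=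
  (Primrec.nat_add.comp (Primrec.snd.comp Primrec.fst)
    (Primrec.fst.comp (Primrec.unpair.comp Primrec.snd))).to_comp

theorem jb_comp : Computable₂ jb :=
  (Primrec.nat_add.comp (Primrec.snd.comp Primrec.fst)
    (Primrec.snd.comp (Primrec.unpair.comp Primrec.snd))).to_comp

theorem free_comp : Computable₂ free :=
  (Primrec.not.comp (Primrec.option_isSome.comp
    (Primrec.listLookup.comp Primrec.snd (Primrec.fst.comp Primrec.fst)))).to_comp

theorem good_comp {V : ℕ → ℕ → ℕ} (hV : Computable₂ V) : Computable₂ (good V) := by
  have hs : Computable (fun p : (St × ℕ) × ℕ => p.1.1) := Computable.fst.comp Computable.fst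
  have hn : Computable (fun p : (St × ℕ) × ℕ => p.1.2) := Computable.snd.comp Computable.fst
  have h1 : Computable (fun p : (St × ℕ) × ℕ => ja p.1.1 p.2) := ja_comp.comp hs Computable.snd
  have h2 : Computable (fun p : (St × ℕ) × ℕ => jb p.1.1 p.2) := jb_comp.comp hs Computable.snd
  have h3 : Computable (fun p : (St × ℕ) × ℕ => V (ja p.1.1 p.2) p.1.2) := hV.comp h1 hn
  have h4 : Computable (fun p : (St × ℕ) × ℕ => V (jb p.1.1 p.2) p.1.2) := hV.comp h2 hn
  have hbeq : Computable₂ (fun a b : ℕ => a == b) := Primrec.beq.to_comp
  have hor : Computable₂ or := Primrec.or.to_comp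
  have hand : Computable₂ and := Primrec.and.to_comp
  have hnot : Computable not := Primrec.not.to_comp
  exact hand.comp (hnot.comp (hbeq.comp h1 h2))
    (hor.comp (free_comp.comp hs h3) (hbeq.comp h3 h4))

theorem fnd_comp {V : ℕ → ℕ → ℕ} (hV : Computable₂ V) : Computable (fnd V) := by
  have h1 : Partrec₂ (fun (a : St × ℕ) (e : ℕ) => (Part.some (good V a e) : Part Bool)) :=
    (good_comp hV).partrec₂
  have h2 := Partrec.rfind h1
  refine h2.of_eq (fun a => ?_)
  refine Part.eq_some_iff.2 (Nat.mem_rfind.2 ⟨?_, fun {m} hm => ?_⟩)
  · have := Nat.find_spec (exists_good V a)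
    exact Part.mem_some_iff.2 this.symm
  · have := Nat.find_min (exists_good V a) hm
    have h3 : good V a m = false := by simpa using this
    exact Part.mem_some_iff.2 h3.symm

theorem upd_comp {V : ℕ → ℕ → ℕ} (hV : Computable₂ V) : Computable (upd V) := by
  have hs : Computable (fun p : St × ℕ => p.1) := Computable.fst
  have hn : Computable (fun p : St × ℕ => p.2) := Computable.snd
  have hf := fnd_comp hV
  have h1 : Computable (fun p : St × ℕ => ja p.1 (fnd V p)) := ja_comp.comp hs hf
  have h2 : Computable (fun p : St × ℕ => jb p.1 (fnd V p)) := jb_comp.comp hs hf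
  have h3 : Computable (fun p : St × ℕ => V (ja p.1 (fnd V p)) p.2) := hV.comp h1 hn
  have hD : Computable (fun p : St × ℕ => p.1.1) := Computable.fst.comp Computable.fst
  have h4 : Computable (fun p : St × ℕ => free p.1 (V (ja p.1 (fnd V p)) p.2)) :=
    free_comp.comp hs h3
  have h5 : Computable (fun p : St × ℕ =>
      (p.2, V (ja p.1 (fnd V p)) p.2) :: (V (ja p.1 (fnd V p)) p.2, p.2) :: p.1.1) :=
    Computable.list_cons.comp (hn.pair h3) (Computable.list_cons.comp (h3.pair hn) hD)
  have h6 : Computable (fun p : St × ℕ => (p.2, p.2) :: p.1.1) :=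
    Computable.list_cons.comp (hn.pair hn) hD
  have hadd : Computable₂ (fun a b : ℕ => a + b) := Primrec.nat_add.to_comp
  exact (Computable.cond h4 h5 h6).pair (Computable.succ.comp (hadd.comp h1 h2))

theorem stp_comp {V : ℕ → ℕ → ℕ} (hV : Computable₂ V) : Computable (stp V) :=
  Computable.cond (free_comp.comp Computable.fst Computable.snd) (upd_comp hV) Computable.fst

theorem st_comp {V : ℕ → ℕ → ℕ} (hV : Computable₂ V) : Computable (st V) := by
  have h : Computable₂ (fun (_ : ℕ) (p : ℕ × St) => stp V (p.2, p.1)) :=
    (stp_comp hV).comp ((Computable.snd.comp Computable.snd).pair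
      (Computable.fst.comp Computable.snd))
  exact Computable.nat_rec (f := fun n : ℕ => n) (g := fun _ => (([], 0) : St))
    (h := fun (_ : ℕ) (p : ℕ × St) => stp V (p.2, p.1)) Computable.id (Computable.const _) h

theorem pi_comp {V : ℕ → ℕ → ℕ} (hV : Computable₂ V) : Computable (pi V) := by
  have h1 : Computable (fun n => (st V (n + 1)).1) :=
    Computable.fst.comp ((st_comp hV).comp Computable.succ)
  have h2 : Computable₂ (fun (n : ℕ) (D : List (ℕ × ℕ)) => List.lookup n D) :=
    Primrec.listLookup.to_comp
  exact Computable.option_getD (h2.comp Computable.id h1) (Computable.const 0)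

end computable

section correctness

variable {V : ℕ → ℕ → ℕ}

theorem st_succ (n : ℕ) : st V (n + 1) = stp V (st V n, n) := rfl

/-- the chosen first index at stage `k` -/
noncomputable def jk (V : ℕ → ℕ → ℕ) (k : ℕ) : ℕ := ja (st V k) (fnd V (st V k, k))

/-- the chosen second index at stage `k` -/
noncomputable def jk' (V : ℕ → ℕ → ℕ) (k : ℕ) : ℕ := jb (st V k) (fnd V (st V k, k))

/-- lookup at stage `k` -/
noncomputable def lk (V : ℕ → ℕ → ℕ) (k a : ℕ) : Option ℕ := List.lookup a (st V k).1

theorem free_iff (k a : ℕ) : free (st V k) a = true ↔ lk V k a = none := by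
  unfold free lk
  cases List.lookup a (st V k).1 <;> simp

theorem not_free_iff (k a : ℕ) : free (st V k) a = false ↔ ∃ b, lk V k a = some b := by
  unfold free lk
  cases List.lookup a (st V k).1 <;> simp

theorem lk_zero (a : ℕ) : lk V 0 a = none := rfl

theorem good_jk (k : ℕ) : jk V k ≠ jk' V k ∧
    (lk V k (V (jk V k) k) = none ∨ V (jk V k) k = V (jk' V k) k) := by
  have h : good V (st V k, k) (fnd V (st V k, k)) = true :=
    Nat.find_spec (exists_good V (st V k, k))
  unfold good at h
  rw [Bool.and_eq_true, Bool.or_eq_true] at h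
  obtain ⟨h1, h2⟩ := h
  constructor
  · simpa [jk, jk'] using h1
  · rcases h2 with h2 | h2
    · left
      exact (free_iff _ _).1 h2
    · right
      simpa [jk, jk'] using h2

/-- inactive stages -/
theorem st_inactive {k : ℕ} (h : lk V k k ≠ none) : st V (k + 1) = st V k := by
  rw [st_succ]
  unfold stp
  have h1 : free (st V k) k = false := by
    rw [← Bool.not_eq_true, free_iff]
    exact h
  simp only [h1, cond_false]

/-- active stages -/
theorem st_active {k : ℕ} (h : lk V k k = none) : st V (k + 1) = upd V (st V k, k) := by
  rw [st_succ]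
  unfold stp
  have h1 : free (st V k) k = true := (free_iff k k).2 h
  simp only [h1, cond_true]

theorem active_bound {k : ℕ} (h : lk V k k = none) :
    (st V k).2 ≤ jk V k ∧ (st V k).2 ≤ jk' V k ∧ jk V k < (st V (k + 1)).2 ∧
      jk' V k < (st V (k + 1)).2 := by
  rw [st_active h]
  unfold upd
  refine ⟨Nat.le_add_right _ _, Nat.le_add_right _ _, ?_, ?_⟩
  · show jk V k < jk V k + jk' V k + 1
    omega
  · show jk' V k < jk V k + jk' V k + 1
    omega

theorem bound_succ (k : ℕ) : (st V k).2 ≤ (st V (k + 1)).2 := by
  by_cases h : lk V k k = none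
  · have := active_bound h
    omega
  · rw [st_inactive h]

theorem bound_mono {k l : ℕ} (h : k ≤ l) : (st V k).2 ≤ (st V l).2 :=
  monotone_nat_of_le_succ (f := fun k => (st V k).2) bound_succ h

/-- swap type -/
theorem lk_swap {k : ℕ} (h : lk V k k = none) (hf : lk V k (V (jk V k) k) = none) (a : ℕ) :
    lk V (k + 1) a = if a = k then some (V (jk V k) k)
      else if a = V (jk V k) k then some k else lk V k a := by
  have h1 : (st V (k + 1)).1 = (k, V (jk V k) k) :: (V (jk V k) k, k) :: (st V k).1 := by
    rw [st_active h]
    unfold upd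
    have h2 : free (st V k) (V (ja (st V k) (fnd V (st V k, k))) k) = true :=
      (free_iff _ _).2 hf
    simp only [h2, cond_true]
    rfl
  unfold lk
  rw [h1, List.lookup_cons, List.lookup_cons]
  by_cases ha : a = k
  · simp [ha]
  · have e1 : (a == k) = false := by simpa using ha
    rw [e1, if_neg ha]
    by_cases hb : a = V (jk V k) k
    · have e2 : (a == V (jk V k) k) = true := by simpa using hb
      rw [e2, if_pos hb]
    · have e2 : (a == V (jk V k) k) = false := by simpa using hb
      rw [e2, if_neg hb]

/-- fixed type -/
theorem lk_fix {k : ℕ} (h : lk V k k = none) (hf : lk V k (V (jk V k) k) ≠ none) (a : ℕ) :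
    lk V (k + 1) a = if a = k then some k else lk V k a := by
  have h1 : (st V (k + 1)).1 = (k, k) :: (st V k).1 := by
    rw [st_active h]
    unfold upd
    have h2 : free (st V k) (V (ja (st V k) (fnd V (st V k, k))) k) = false := by
      rw [← Bool.not_eq_true, free_iff]
      exact hf
    simp only [h2, cond_false]
  unfold lk
  rw [h1, List.lookup_cons]
  by_cases ha : a = k
  · simp [ha]
  · have e1 : (a == k) = false := by simpa using ha
    rw [e1, if_neg ha]

theorem lk_succ {k a b : ℕ} (h : lk V k a = some b) : lk V (k + 1) a = some b := by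
  by_cases hk : lk V k k = none
  · have ha : a ≠ k := by
      rintro rfl
      rw [hk] at h
      cases h
    by_cases hf : lk V k (V (jk V k) k) = none
    · have hb : a ≠ V (jk V k) k := by
        rintro rfl
        rw [hf] at h
        cases h
      rw [lk_swap hk hf, if_neg ha, if_neg hb, h]
    · rw [lk_fix hk hf, if_neg ha, h]
  · have : lk V (k + 1) a = lk V k a := by
      unfold lk
      rw [st_inactive hk]
    rw [this, h]

theorem lk_mono {k l a b : ℕ} (hkl : k ≤ l) (h : lk V k a = some b) : lk V l a = some b := by
  induction l, hkl using Nat.le_induction with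
  | base => exact h
  | succ l _ ih => exact lk_succ ih

theorem lk_symm : ∀ {k a b : ℕ}, lk V k a = some b → lk V k b = some a
  | 0, a, b, h => by
    rw [lk_zero] at h
    cases h
  | k + 1, a, b, h => by
    by_cases hk : lk V k k = none
    · by_cases hf : lk V k (V (jk V k) k) = none
      · rw [lk_swap hk hf] at h ⊢
        by_cases ha : a = k
        · rw [if_pos ha] at h
          have hb : b = V (jk V k) k := (Option.some.inj h).symm
          by_cases hbk : b = k
          · rw [if_pos hbk, ha]
            rw [hbk] at hb
            rw [← hb]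
          · rw [if_neg hbk, if_pos hb, ha]
        · rw [if_neg ha] at h
          by_cases hb : a = V (jk V k) k
          · rw [if_pos hb] at h
            have hbk : b = k := (Option.some.inj h).symm
            rw [if_pos hbk, hb]
          · rw [if_neg hb] at h
            have ih := lk_symm h
            have hbk : b ≠ k := by
              rintro rfl
              rw [hk] at ih
              cases ih
            have hbv : b ≠ V (jk V k) k := by
              rintro rfl
              rw [hf] at ih
              cases ih
            rw [if_neg hbk, if_neg hbv, ih]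
      · rw [lk_fix hk hf] at h ⊢
        by_cases ha : a = k
        · rw [if_pos ha] at h
          have hbk : b = k := (Option.some.inj h).symm
          rw [if_pos hbk, ha]
        · rw [if_neg ha] at h
          have ih := lk_symm h
          have hbk : b ≠ k := by
            rintro rfl
            rw [hk] at ih
            cases ih
          rw [if_neg hbk, ih]
    · have e : ∀ c, lk V (k + 1) c = lk V k c := by
        intro c
        unfold lk
        rw [st_inactive hk]
      rw [e] at h ⊢
      exact lk_symm h

theorem lk_self (k : ℕ) : ∃ b, lk V (k + 1) k = some b := by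
  by_cases hk : lk V k k = none
  · by_cases hf : lk V k (V (jk V k) k) = none
    · exact ⟨_, by rw [lk_swap hk hf, if_pos rfl]⟩
    · exact ⟨_, by rw [lk_fix hk hf, if_pos rfl]⟩
  · have e : lk V (k + 1) k = lk V k k := by
      unfold lk
      rw [st_inactive hk]
    rw [e]
    exact Option.ne_none_iff_exists'.1 hk

theorem pi_eq {k a b : ℕ} (h : lk V k a = some b) : pi V a = b := by
  obtain ⟨c, hc⟩ := lk_self (V := V) a
  have h1 := lk_mono (le_max_left k (a + 1)) h
  have h2 := lk_mono (le_max_right k (a + 1)) hc
  rw [h1] at h2
  have hbc : b = c := Option.some.inj h2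
  have h3 : pi V a = (lk V (a + 1) a).getD 0 := rfl
  rw [h3, hc, hbc]
  rfl

theorem pi_invol (a : ℕ) : pi V (pi V a) = a := by
  obtain ⟨c, hc⟩ := lk_self (V := V) a
  rw [pi_eq hc, pi_eq (lk_symm hc)]

theorem exists_stage (V : ℕ → ℕ → ℕ) (a : ℕ) : ∃ k, lk V (k + 1) a ≠ none :=
  ⟨a, by obtain ⟨c, hc⟩ := lk_self (V := V) a; rw [hc]; exact Option.some_ne_none c⟩

open Classical in
/-- the stage at which `a` enters -/
noncomputable def stg (V : ℕ → ℕ → ℕ) (a : ℕ) : ℕ := Nat.find (exists_stage V a)

theorem stg_pos (a : ℕ) : lk V (stg V a + 1) a ≠ none := by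
  classical
  exact Nat.find_spec (exists_stage V a)

theorem stg_neg (a : ℕ) : lk V (stg V a) a = none := by
  classical
  rcases Nat.eq_zero_or_pos (stg V a) with h | h
  · rw [h, lk_zero]
  · obtain ⟨k, hk⟩ : ∃ k, stg V a = k + 1 := ⟨stg V a - 1, by omega⟩
    rw [hk]
    by_contra hne
    have hlt : k < Nat.find (exists_stage V a) := by
      show k < stg V a
      omega
    exact Nat.find_min (exists_stage V a) hlt hne

theorem stg_active (a : ℕ) : lk V (stg V a) (stg V a) = none := by
  by_contra h
  have e : lk V (stg V a + 1) a = lk V (stg V a) a := by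
    unfold lk
    rw [st_inactive h]
  exact stg_pos a (e.trans (stg_neg a))

theorem stg_cases (a : ℕ) :
    (lk V (stg V a) (V (jk V (stg V a)) (stg V a)) = none ∧
      (a = stg V a ∨ a = V (jk V (stg V a)) (stg V a))) ∨
    (lk V (stg V a) (V (jk V (stg V a)) (stg V a)) ≠ none ∧ a = stg V a) := by
  have hp := stg_pos (V := V) a
  have hn := stg_neg (V := V) a
  have ha := stg_active (V := V) a
  by_cases hf : lk V (stg V a) (V (jk V (stg V a)) (stg V a)) = none
  · left
    refine ⟨hf, ?_⟩
    rw [lk_swap ha hf] at hp
    by_contra hc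
    push Not at hc
    rw [if_neg hc.1, if_neg hc.2] at hp
    exact hp hn
  · right
    refine ⟨hf, ?_⟩
    rw [lk_fix ha hf] at hp
    by_contra hc
    rw [if_neg hc] at hp
    exact hp hn

open Classical in
/-- the letter used at `a` -/
noncomputable def code (V : ℕ → ℕ → ℕ) (a : ℕ) : Lt :=
  if lk V (stg V a) (V (jk V (stg V a)) (stg V a)) = none then
    (if a = stg V a then Lt.pos (jk V (stg V a)) else Lt.neg (jk V (stg V a)))
  else Lt.dif (jk V (stg V a)) (jk' V (stg V a))

theorem code_main (a : ℕ) : (code V a).main.1 = jk V (stg V a) := by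
  unfold code
  split_ifs <;> rfl

theorem jk_lt {a b : ℕ} (h : stg V a < stg V b) :
    jk V (stg V a) < jk V (stg V b) ∧ jk' V (stg V a) < jk V (stg V b) ∧
      jk V (stg V a) < jk' V (stg V b) := by
  have h1 := active_bound (stg_active (V := V) a)
  have h2 := active_bound (stg_active (V := V) b)
  have h3 := bound_mono (V := V) (Nat.succ_le_of_lt h)
  have h4 : stg V a + 1 = (stg V a).succ := rfl
  rw [← h4] at h3
  omega

theorem stg_eq_of_jk {a b : ℕ} (h : jk V (stg V a) = jk V (stg V b)) : stg V a = stg V b := by
  rcases lt_trichotomy (stg V a) (stg V b) with hlt | heq | hgt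
  · have := (jk_lt hlt).1
    omega
  · exact heq
  · have := (jk_lt hgt).1
    omega

end correctness

end PermAux

open PermAux

/-- Given a computable sequence of permutations `V j` (with inverses `V' j`) there is a
computable permutation `π` which agrees at every `n` with `V j`, with `V' j` or with
`V j'⁻¹ ∘ V j`, where the indices used for different `n` are essentially distinct. -/
theorem exists_perm (V V' : ℕ → ℕ → ℕ) (hV : Computable₂ V) (hV' : Computable₂ V')
    (h1 : ∀ j n, V' j (V j n) = n) (h2 : ∀ j n, V j (V' j n) = n) :
    ∃ (π : ℕ → ℕ) (code : ℕ → Lt), Computable π ∧ Function.Bijective π ∧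
      (∀ n j, code n = Lt.pos j → π n = V j n) ∧
      (∀ n j, code n = Lt.neg j → π n = V' j n) ∧
      (∀ n j j', code n = Lt.dif j j' → π n = n ∧ V j n = V j' n ∧ j ≠ j') ∧
      Function.Injective (fun n => (code n).main) ∧
      (∀ n j j', code n = Lt.dif j j' → ∀ m, (code m).main.1 ≠ j') := by
  refine ⟨pi V, code V, pi_comp hV, ?_, ?_, ?_, ?_, ?_, ?_⟩
  · exact (Function.Involutive.bijective (fun a => pi_invol a))
  · intro a j hc
    have ha := stg_active (V := V) a
    unfold code at hc
    split_ifs at hc with hf hs
    · injection hc with hj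
      have e : lk V (stg V a + 1) a = some (V (jk V (stg V a)) (stg V a)) := by
        rw [lk_swap ha hf, if_pos hs]
      rw [pi_eq e, ← hj, ← hs]
  · intro a j hc
    have ha := stg_active (V := V) a
    unfold code at hc
    split_ifs at hc with hf hs
    · injection hc with hj
      have hav : a = V (jk V (stg V a)) (stg V a) := by
        rcases stg_cases (V := V) a with h | h
        · rcases h.2 with h | h
          · exact absurd h hs
          · exact h
        · exact absurd hf h.1
      have e : lk V (stg V a + 1) a = some (stg V a) := by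
        rw [lk_swap ha hf, if_neg hs, if_pos hav]
      have e2 := h1 (jk V (stg V a)) (stg V a)
      rw [← hav, hj] at e2
      rw [pi_eq e, e2]
  · intro a j j' hc
    have ha := stg_active (V := V) a
    unfold code at hc
    split_ifs at hc with hf hs
    · injection hc with hj hj'
      have has : a = stg V a := by
        rcases stg_cases (V := V) a with h | h
        · exact absurd h.1 hf
        · exact h.2
      have e : lk V (stg V a + 1) a = some (stg V a) := by
        rw [lk_fix ha hf, if_pos has]
      obtain ⟨g1, g2⟩ := good_jk (V := V) (stg V a)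
      rcases g2 with g2 | g2
      · exact absurd g2 hf
      · rw [hj, hj', ← has] at g2
        rw [hj, hj'] at g1
        exact ⟨by rw [pi_eq e, ← has], g2, g1⟩
  · intro a b hab
    simp only at hab
    have hj : jk V (stg V a) = jk V (stg V b) := by
      rw [← code_main, ← code_main, hab]
    have hs := stg_eq_of_jk hj
    have ca := stg_cases (V := V) a
    have cb := stg_cases (V := V) b
    rw [← hs] at cb
    rcases ca with ⟨fa, ca⟩ | ⟨fa, ca⟩
    · rcases cb with ⟨fb, cb⟩ | ⟨fb, cb⟩
      · by_cases ha : a = stg V a
        · by_cases hb : b = stg V a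
          · rw [ha, ← hb]
          · exfalso
            have e1 : code V a = Lt.pos (jk V (stg V a)) := by
              unfold code
              rw [if_pos fa, if_pos ha]
            have e2 : code V b = Lt.neg (jk V (stg V a)) := by
              unfold code
              rw [← hs, if_pos fa, if_neg hb]
            rw [e1, e2] at hab
            simp [Lt.main] at hab
        · by_cases hb : b = stg V a
          · exfalso
            have e1 : code V a = Lt.neg (jk V (stg V a)) := by
              unfold code
              rw [if_pos fa, if_neg ha]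
            have e2 : code V b = Lt.pos (jk V (stg V a)) := by
              unfold code
              rw [← hs, if_pos fa, if_pos hb]
            rw [e1, e2] at hab
            simp [Lt.main] at hab
          · rcases ca with ca | ca
            · exact absurd ca ha
            · rcases cb with cb | cb
              · exact absurd cb hb
              · rw [ca, cb]
      · exact absurd fa fb
    · rcases cb with ⟨fb, cb⟩ | ⟨fb, cb⟩
      · exact absurd fb fa
      · rw [ca, ← cb]
  · intro a j j' hc m hm
    rw [code_main] at hm
    unfold code at hc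
    split_ifs at hc with hf hs
    · injection hc with hj hj'
      rw [← hj'] at hm
      rcases lt_trichotomy (stg V a) (stg V m) with hlt | heq | hgt
      · have := (jk_lt hlt).2.1
        omega
      · rw [← heq] at hm
        exact (good_jk (V := V) (stg V a)).1 hm
      · have := (jk_lt hgt).2.2
        omega

end Pool.Agent.RI
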