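import Pool.Agent.Helper71.RI.Defs

/-!
# Reduced words in the free product of copies of `ℤ/3`
-/

set_option autoImplicit false

namespace Pool.Agent.RI

open Monoid.CoprodI

/-- The reduced word of an element. -/
abbrev wd (g : Lam) : Word (fun _ : ℕ => Multiplicative (ZMod 3)) := Word.equiv g

theorem wd_one : wd 1 = Word.empty := by
  show (1 : Lam) • Word.empty = _
  rw [one_smul]

theorem wd_prod (w : Word (fun _ : ℕ => Multiplicative (ZMod 3))) : wd w.prod = w :=
  Word.equiv.right_inv w

theorem prod_wd (g : Lam) : (wd g).prod = g :=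
  Word.equiv.left_inv g

theorem ofAdd_ne {e : ZMod 3} (he : e ≠ 0) : (Multiplicative.ofAdd e) ≠ 1 := by
  intro h
  exact he (Multiplicative.ofAdd.injective (h.trans ofAdd_zero.symm))

theorem fst_eq_wd (g : Lam) : fst g = (wd g).fstIdx := rfl

theorem wd_mul {n : ℕ} {e : ZMod 3} (he : e ≠ 0) {g : Lam} (h : fst g ≠ some n) :
    (wd (thp n e * g)).toList = ⟨n, Multiplicative.ofAdd e⟩ :: (wd g).toList := by
  rw [fst_eq_wd] at h
  have h2 : wd (thp n e * g) =
      Word.cons (i := n) (Multiplicative.ofAdd e) (wd g) h (ofAdd_ne he) := by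
    rw [Word.cons_eq_smul]
    exact mul_smul (thp n e) g
      (Word.empty : Word (fun _ : ℕ => Multiplicative (ZMod 3)))
  rw [h2, Word.cons_toList]

theorem thp_zero (n : ℕ) : thp n 0 = 1 := by
  simp [thp]

theorem thp_add (n : ℕ) (e f : ZMod 3) : thp n (e + f) = thp n e * thp n f := by
  simp [thp, ofAdd_add]

theorem thp_neg (n : ℕ) (e : ZMod 3) : thp n (-e) = (thp n e)⁻¹ := by
  rw [eq_inv_iff_mul_eq_one, ← thp_add, neg_add_cancel, thp_zero]

theorem th_sq (n : ℕ) : th n ^ 2 = thp n 2 := by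
  rw [pow_two, th, ← thp_add]; rfl

theorem th_cube (n : ℕ) : th n ^ 3 = 1 := by
  rw [pow_succ, th_sq, th, ← thp_add, ← thp_zero n]; rfl

theorem fst_one : fst 1 = none := by
  show (wd 1).fstIdx = none
  rw [wd_one]; rfl

theorem lst_one : lst 1 = none := by
  show ((wd 1).toList.getLast?).map Sigma.fst = none
  rw [wd_one]; rfl

theorem wt_one : wt 1 = 0 := by
  show ((wd 1).toList.map (fun s => s.1 + 1)).sum = 0
  rw [wd_one]; rfl

theorem wd_eq_of_nil {g : Lam} (h : (wd g).toList = []) : g = 1 := by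
  rw [← prod_wd g]
  have : wd g = Word.empty := Word.ext h
  rw [this]; rfl

theorem fst_eq_none {g : Lam} : fst g = none ↔ g = 1 := by
  constructor
  · intro h
    apply wd_eq_of_nil
    have h' : ((wd g).toList.head?).map Sigma.fst = none := h
    rw [Option.map_eq_none_iff, List.head?_eq_none_iff] at h'
    exact h'
  · rintro rfl; exact fst_one

theorem lst_eq_none {g : Lam} : lst g = none ↔ g = 1 := by
  constructor
  · intro h
    apply wd_eq_of_nil
    have h' : ((wd g).toList.getLast?).map Sigma.fst = none := h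
    rw [Option.map_eq_none_iff, List.getLast?_eq_none_iff] at h'
    exact h'
  · rintro rfl; exact lst_one

theorem fst_mul {n : ℕ} {e : ZMod 3} (he : e ≠ 0) {g : Lam} (h : fst g ≠ some n) :
    fst (thp n e * g) = some n := by
  rw [fst_eq_wd, Word.fstIdx, wd_mul he h]
  rfl

theorem wt_mul {n : ℕ} {e : ZMod 3} (he : e ≠ 0) {g : Lam} (h : fst g ≠ some n) :
    wt (thp n e * g) = (n + 1) + wt g := by
  show ((wd (thp n e * g)).toList.map (fun s => s.1 + 1)).sum =
    (n + 1) + ((wd g).toList.map (fun s => s.1 + 1)).sum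
  rw [wd_mul he h, List.map_cons, List.sum_cons]

theorem lst_mul {n : ℕ} {e : ZMod 3} {g : Lam} (h : fst g ≠ some n) (hg : g ≠ 1) :
    lst (thp n e * g) = lst g := by
  by_cases he : e = 0
  · rw [he, thp_zero, one_mul]
  show ((wd (thp n e * g)).toList.getLast?).map Sigma.fst = ((wd g).toList.getLast?).map Sigma.fst
  rw [wd_mul he h]
  have hne : (wd g).toList ≠ [] := fun h0 => hg (wd_eq_of_nil h0)
  rw [List.getLast?_cons]
  obtain ⟨x, hx⟩ : ∃ x, (wd g).toList.getLast? = some x := by
    rw [← Option.isSome_iff_exists]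
    rw [List.getLast?_isSome]; exact hne
  rw [hx]; rfl

theorem lst_thp {n : ℕ} {e : ZMod 3} (he : e ≠ 0) : lst (thp n e) = some n := by
  have h1 : fst (1 : Lam) ≠ some n := by rw [fst_one]; simp
  have h := wd_mul he h1
  rw [mul_one] at h
  show ((wd (thp n e)).toList.getLast?).map Sigma.fst = some n
  rw [h, wd_one]
  rfl

theorem left_dec (n : ℕ) (g : Lam) : ∃ (e : ZMod 3) (g' : Lam), fst g' ≠ some n ∧ g = thp n e * g' := by
  refine ⟨(Word.equivPair n (wd g)).head.toAdd, (Word.equivPair n (wd g)).tail.prod, ?_, ?_⟩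
  · show (wd _).fstIdx ≠ some n
    rw [wd_prod]
    exact (Word.equivPair n (wd g)).fstIdx_ne
  · have h := Word.equivPair_head_smul_equivPair_tail (i := n) (wd g)
    have h2 := congrArg Word.prod h
    rw [Word.prod_smul, prod_wd] at h2
    exact h2.symm

theorem left_uniq {n : ℕ} {e e' : ZMod 3} {g g' : Lam} (h : fst g ≠ some n) (h' : fst g' ≠ some n)
    (he : thp n e * g = thp n e' * g') : e = e' ∧ g = g' := by
  by_cases hee : e = e'
  · subst hee
    exact ⟨rfl, mul_left_cancel he⟩
  · exfalso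
    have h1 : thp n (e - e') * g = g' := by
      rw [sub_eq_add_neg, add_comm, thp_add, thp_neg, mul_assoc, he, inv_mul_cancel_left]
    apply h'
    rw [← h1]
    exact fst_mul (sub_ne_zero.mpr hee) h

/-- The reversed word of inverses. -/
def winv (w : Word (fun _ : ℕ => Multiplicative (ZMod 3))) :
    Word (fun _ : ℕ => Multiplicative (ZMod 3)) where
  toList := (w.toList.map (fun l => ⟨l.1, l.2⁻¹⟩)).reverse
  ne_one := by
    intro l hl
    rw [List.mem_reverse, List.mem_map] at hl
    obtain ⟨a, ha, rfl⟩ := hl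
    exact inv_ne_one.mpr (w.ne_one a ha)
  chain_ne := by
    rw [List.isChain_reverse, List.isChain_map]
    exact w.chain_ne.imp (fun a b hab => fun h => hab h.symm)

theorem winv_prod (w : Word (fun _ : ℕ => Multiplicative (ZMod 3))) :
    (winv w).prod = w.prod⁻¹ := by
  unfold Word.prod
  rw [List.prod_inv_reverse]
  simp [winv, List.map_reverse, Function.comp_def]

theorem wd_inv (g : Lam) : wd g⁻¹ = winv (wd g) := by
  rw [← wd_prod (winv (wd g)), winv_prod, prod_wd]

theorem fst_inv (g : Lam) : fst g⁻¹ = lst g := by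
  show ((wd g⁻¹).toList.head?).map Sigma.fst = ((wd g).toList.getLast?).map Sigma.fst
  rw [wd_inv]
  simp only [winv, List.head?_reverse, List.getLast?_map, Option.map_map]
  rfl

theorem right_dec (m : ℕ) (g : Lam) : ∃ (e : ZMod 3) (g' : Lam), lst g' ≠ some m ∧ g = g' * thp m e := by
  obtain ⟨e, g', h1, h2⟩ := left_dec m g⁻¹
  refine ⟨-e, g'⁻¹, ?_, ?_⟩
  · rw [← fst_inv, inv_inv]; exact h1
  · rw [thp_neg, ← mul_inv_rev, ← h2, inv_inv]

theorem right_uniq {m : ℕ} {e e' : ZMod 3} {g g' : Lam} (h : lst g ≠ some m) (h' : lst g' ≠ some m)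
    (he : g * thp m e = g' * thp m e') : e = e' ∧ g = g' := by
  have h2 := congrArg (·⁻¹) he
  simp only [mul_inv_rev, ← thp_neg] at h2
  rw [← fst_inv] at h h'
  have h3 := left_uniq h h' h2
  exact ⟨neg_injective h3.1, inv_injective h3.2⟩

/-- Specification of `dec`. -/
theorem dec_spec (g : Lam) (m : ℕ) :
    g = (dec g m).1 * thp m (dec g m).2 ∧ lst (dec g m).1 ≠ some m := by
  have hex : ∃ r : Lam × ZMod 3, g = r.1 * thp m r.2 ∧ lst r.1 ≠ some m := by
    obtain ⟨e, g', h1, h2⟩ := right_dec m g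
    exact ⟨(g', e), h2, h1⟩
  exact Classical.epsilon_spec hex

theorem dec_eq {g g' : Lam} {m : ℕ} {e : ZMod 3} (h : g = g' * thp m e) (h' : lst g' ≠ some m) :
    dec g m = (g', e) := by
  obtain ⟨h1, h2⟩ := dec_spec g m
  have h3 := right_uniq h2 h' (h1.symm.trans h)
  exact Prod.ext h3.2 h3.1

theorem isZ_nrm (s : Cf) : IsZ (nrm s) := by
  intro g m
  obtain ⟨h1, h2⟩ := dec_spec g m
  have h3 : dec (g * th m) m = ((dec g m).1, (dec g m).2 + 1) := by
    apply dec_eq _ h2
    rw [thp_add, ← mul_assoc, ← h1]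
    rfl
  simp only [nrm, h3, add_assoc]

theorem nrm_apply {s : Cf} {g : Lam} {m : ℕ} (h : lst g ≠ some m) : nrm s g m = s g m := by
  have h3 : dec g m = (g, 0) := dec_eq (by rw [thp_zero, mul_one]) h
  simp only [nrm, h3, add_zero]

theorem IsZ.thp {z : Cf} (hz : IsZ z) (g : Lam) (m : ℕ) (e : ZMod 3) :
    z (g * thp m e) m = z g m + e := by
  have h1 : ∀ g, z (g * RI.thp m 1) m = z g m + 1 := fun g => hz g m
  have h2 : ∀ g, z (g * RI.thp m (1 + 1)) m = z g m + (1 + 1) := by
    intro g
    rw [thp_add, ← mul_assoc, h1, h1, add_assoc]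
  fin_cases e
  · show z (g * RI.thp m 0) m = z g m + 0
    rw [thp_zero, mul_one, add_zero]
  · exact h1 g
  · exact h2 g

/-- Two configurations with phases are equal as soon as they agree at the coordinates `(g, m)`
with `g` not ending in `m`. -/
theorem IsZ.ext {z w : Cf} (hz : IsZ z) (hw : IsZ w)
    (h : ∀ g m, lst g ≠ some m → z g m = w g m) : z = w := by
  funext g m
  obtain ⟨h1, h2⟩ := dec_spec g m
  rw [h1, hz.thp, hw.thp, h _ _ h2]

theorem IsZ.act {z : Cf} (hz : IsZ z) (g : Lam) : IsZ (act g z) := by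
  intro h m
  simp only [RI.act, ← mul_assoc]
  exact hz _ _

/-- The exponent sum. -/
theorem exists_esum : ∃ ε : Lam →* Multiplicative (ZMod 3), ∀ n e, ε (thp n e) = Multiplicative.ofAdd e :=
  ⟨lift (fun _ => MonoidHom.id _), fun n e => by simp [thp]⟩

instance : Countable Lam := by
  have h : Function.Injective (fun g : Lam => (wd g).toList) := by
    intro a b hab
    have : wd a = wd b := Word.ext hab
    exact Word.equiv.injective this
  have : Countable (Multiplicative (ZMod 3)) := inferInstanceAs (Countable (ZMod 3))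
  exact h.countable

end Pool.Agent.RI
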